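import Mathlib

/-!
From parametrised curves (polynomials in one variable) to morphisms from the projective line.
-/

set_option autoImplicit false

open Polynomial

namespace Pool.Agent.Y214.CS

section Cubic

variable {K : Type*} [Field K]

theorem cubic_rep (F : MvPolynomial (Fin 4) K) (hF : F.IsHomogeneous 3) :
    ∃ c : Fin 4 → Fin 4 → Fin 4 → K, F = ∑ i, ∑ j, ∑ k,
      MvPolynomial.C (c i j k) * MvPolynomial.X i * MvPolynomial.X j * MvPolynomial.X k := by
  have h1 : ∀ p ∈ MvPolynomial.homogeneousSubmodule (Fin 4) K 1, ∃ a : Fin 4 → K,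
      p = ∑ i, MvPolynomial.C (a i) * MvPolynomial.X i := by
    intro p hp
    rw [MvPolynomial.homogeneousSubmodule_one_eq_span_X] at hp
    obtain ⟨c, hc⟩ := (Submodule.mem_span_range_iff_exists_fun K).mp hp
    refine ⟨c, ?_⟩
    rw [← hc]
    refine Finset.sum_congr rfl fun i _ => ?_
    rw [MvPolynomial.smul_eq_C_mul]
  have h2 : ∀ p ∈ MvPolynomial.homogeneousSubmodule (Fin 4) K 1 *
      MvPolynomial.homogeneousSubmodule (Fin 4) K 1, ∃ a : Fin 4 → Fin 4 → K,
      p = ∑ i, ∑ j, MvPolynomial.C (a i j) * MvPolynomial.X i * MvPolynomial.X j := by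
    intro p hp
    induction hp using Submodule.mul_induction_on' with
    | mem_mul_mem m hm n hn =>
      obtain ⟨a, ha⟩ := h1 m hm
      obtain ⟨b, hb⟩ := h1 n hn
      refine ⟨fun i j => a i * b j, ?_⟩
      rw [ha, hb, Finset.sum_mul]
      refine Finset.sum_congr rfl fun i _ => ?_
      rw [Finset.mul_sum]
      refine Finset.sum_congr rfl fun j _ => ?_
      rw [map_mul]; ring
    | add x hx y hy h h' =>
      obtain ⟨a, ha⟩ := h
      obtain ⟨b, hb⟩ := h'
      refine ⟨fun i j => a i j + b i j, ?_⟩
      rw [ha, hb, ← Finset.sum_add_distrib]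
      refine Finset.sum_congr rfl fun i _ => ?_
      rw [← Finset.sum_add_distrib]
      refine Finset.sum_congr rfl fun j _ => ?_
      rw [map_add]; ring
  have h3 : F ∈ MvPolynomial.homogeneousSubmodule (Fin 4) K 1 *
      MvPolynomial.homogeneousSubmodule (Fin 4) K 1 *
        MvPolynomial.homogeneousSubmodule (Fin 4) K 1 := by
    have : F ∈ MvPolynomial.homogeneousSubmodule (Fin 4) K 1 ^ 3 := by
      rw [MvPolynomial.homogeneousSubmodule_one_pow]
      exact hF
    rwa [pow_succ, pow_two] at this
  clear hF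
  induction h3 using Submodule.mul_induction_on' with
  | mem_mul_mem m hm n hn =>
    obtain ⟨a, ha⟩ := h2 m hm
    obtain ⟨b, hb⟩ := h1 n hn
    refine ⟨fun i j k => a i j * b k, ?_⟩
    rw [ha, hb, Finset.sum_mul]
    refine Finset.sum_congr rfl fun i _ => ?_
    rw [Finset.sum_mul]
    refine Finset.sum_congr rfl fun j _ => ?_
    rw [Finset.mul_sum]
    refine Finset.sum_congr rfl fun k _ => ?_
    rw [map_mul]; ring
  | add x hx y hy h h' =>
    obtain ⟨a, ha⟩ := h
    obtain ⟨b, hb⟩ := h'
    refine ⟨fun i j k => a i j k + b i j k, ?_⟩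
    rw [ha, hb, ← Finset.sum_add_distrib]
    refine Finset.sum_congr rfl fun i _ => ?_
    rw [← Finset.sum_add_distrib]
    refine Finset.sum_congr rfl fun j _ => ?_
    rw [← Finset.sum_add_distrib]
    refine Finset.sum_congr rfl fun k _ => ?_
    rw [map_add]; ring

theorem aeval_scale (F : MvPolynomial (Fin 4) K) (hF : F.IsHomogeneous 3) {R : Type*}
    [CommRing R] [Algebra K R] (r : R) (v : Fin 4 → R) :
    MvPolynomial.aeval (fun i => r * v i) F = r ^ 3 * MvPolynomial.aeval v F := by
  obtain ⟨c, hc⟩ := cubic_rep F hF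
  rw [hc]
  simp only [map_sum, map_mul, MvPolynomial.aeval_C, MvPolynomial.aeval_X, Finset.mul_sum]
  refine Finset.sum_congr rfl fun i _ => Finset.sum_congr rfl fun j _ =>
    Finset.sum_congr rfl fun k _ => ?_
  ring

end Cubic

section Hom

variable {K : Type*} [Field K]

/-- homogenisation of a polynomial in one variable -/
noncomputable def homog (e : ℕ) (p : K[X]) : MvPolynomial (Fin 2) K :=
  ∑ k ∈ Finset.range (e + 1), MvPolynomial.C (p.coeff k) * MvPolynomial.X 0 ^ k *
    MvPolynomial.X 1 ^ (e - k)

theorem homog_isHomogeneous (e : ℕ) (p : K[X]) : (homog e p).IsHomogeneous e := by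
  apply MvPolynomial.IsHomogeneous.sum
  intro k hk
  have hk' : k ≤ e := by
    have := Finset.mem_range.mp hk
    omega
  have h1 := ((MvPolynomial.isHomogeneous_C_mul_X_pow (R := K) (p.coeff k) (0 : Fin 2) k).mul
    (MvPolynomial.isHomogeneous_X_pow (R := K) (1 : Fin 2) (e - k)))
  rwa [Nat.add_sub_cancel' hk'] at h1

theorem aeval_homog (e : ℕ) (p : K[X]) (hp : p.natDegree ≤ e) (q : Fin 2 → AlgebraicClosure K)
    (hq : q 1 ≠ 0) : MvPolynomial.aeval q (homog e p) = q 1 ^ e * aeval (q 0 / q 1) p := by
  rw [homog, map_sum, Polynomial.aeval_eq_sum_range' (n := e + 1) (by omega), Finset.mul_sum]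
  refine Finset.sum_congr rfl fun k hk => ?_
  have hk' : k ≤ e := by
    have := Finset.mem_range.mp hk
    omega
  simp only [map_mul, map_pow, MvPolynomial.aeval_C, MvPolynomial.aeval_X]
  rw [Algebra.smul_def, div_pow]
  have : q 1 ^ e = q 1 ^ k * q 1 ^ (e - k) := by
    rw [← pow_add, Nat.add_sub_cancel' hk']
  rw [this]
  field_simp

theorem aeval_homog_zero (e : ℕ) (p : K[X]) (q : Fin 2 → AlgebraicClosure K)
    (hq : q 1 = 0) : MvPolynomial.aeval q (homog e p) =
      algebraMap K (AlgebraicClosure K) (p.coeff e) * q 0 ^ e := by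
  rw [homog, map_sum, Finset.sum_eq_single e]
  · simp only [map_mul, map_pow, MvPolynomial.aeval_C, MvPolynomial.aeval_X]
    simp
  · intro k hk hke
    have := Finset.mem_range.mp hk
    have h2 : e - k ≠ 0 := by omega
    simp only [map_mul, map_pow, MvPolynomial.aeval_C, MvPolynomial.aeval_X, hq, zero_pow h2,
      mul_zero]
  · intro h
    exact absurd (Finset.mem_range.mpr (Nat.lt_succ_self e)) h

theorem curve_of_param (F : MvPolynomial (Fin 4) K) (hF : F.IsHomogeneous 3) (x : Fin 4 → K)
    (hx0 : x ≠ 0) (g : Fin 4 → K[X]) (hg : MvPolynomial.aeval g F = 0) (t c : AlgebraicClosure K)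
    (hc : c ≠ 0) (hgt : ∀ i, aeval t (g i) = c * algebraMap K (AlgebraicClosure K) (x i))
    (hn : ∃ i j, C (x i) * g j ≠ C (x j) * g i) :
    ∃ (e : ℕ) (f : Fin 4 → MvPolynomial (Fin 2) K), 0 < e ∧ (∀ i, (f i).IsHomogeneous e) ∧
      (∀ p : Fin 2 → AlgebraicClosure K, (∀ i, MvPolynomial.aeval p (f i) = 0) → p = 0) ∧
      MvPolynomial.aeval f F = 0 ∧
      ∃ (p : Fin 2 → AlgebraicClosure K) (c : AlgebraicClosure K), c ≠ 0 ∧
        ∀ i, MvPolynomial.aeval p (f i) = c * algebraMap K (AlgebraicClosure K) (x i) := by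
  -- divide by the greatest common divisor
  obtain ⟨d, hd⟩ : ∃ d, Ideal.span (Set.range g) = Ideal.span {d} :=
    (IsPrincipalIdealRing.principal (Ideal.span (Set.range g))).principal
  have hdg : ∀ i, d ∣ g i := by
    intro i
    have : g i ∈ Ideal.span (Set.range g) := Ideal.subset_span ⟨i, rfl⟩
    rw [hd] at this
    exact Ideal.mem_span_singleton.mp this
  choose h hh using hdg
  obtain ⟨a, ha⟩ : ∃ a : Fin 4 → K[X], ∑ i, a i * g i = d := by
    have : d ∈ Ideal.span (Set.range g) := by
      rw [hd]; exact Ideal.mem_span_singleton_self d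
    exact Ideal.mem_span_range_iff_exists_fun.mp this
  obtain ⟨i0, hi0⟩ : ∃ i, x i ≠ 0 := by
    by_contra hcon
    push Not at hcon
    exact hx0 (funext hcon)
  have hd0 : d ≠ 0 := by
    intro h0
    have h1 := hgt i0
    rw [hh i0, h0, zero_mul, map_zero] at h1
    exact (mul_ne_zero hc ((_root_.map_ne_zero _).mpr hi0)) h1.symm
  have hbez : ∑ i, a i * h i = 1 := by
    have h1 : d * ∑ i, a i * h i = d * 1 := by
      rw [mul_one, Finset.mul_sum]
      conv_rhs => rw [← ha]
      refine Finset.sum_congr rfl fun i _ => ?_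
      rw [hh i]; ring
    exact mul_left_cancel₀ hd0 h1
  have hFh : MvPolynomial.aeval h F = 0 := by
    have h1 : d ^ 3 * MvPolynomial.aeval h F = 0 := by
      rw [← aeval_scale F hF, ← hg]
      congr 1
      congr 1
      exact funext fun i => (hh i).symm
    exact (mul_eq_zero.mp h1).resolve_left (pow_ne_zero _ hd0)
  have hdt : aeval t d ≠ 0 := by
    intro h0
    have h1 := hgt i0
    rw [hh i0, map_mul, h0, zero_mul] at h1
    exact (mul_ne_zero hc ((_root_.map_ne_zero _).mpr hi0)) h1.symm
  obtain ⟨e, he⟩ : ∃ e, e = Finset.univ.sup fun i => (h i).natDegree := ⟨_, rfl⟩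
  have hle : ∀ i, (h i).natDegree ≤ e := fun i => by
    rw [he]; exact Finset.le_sup (f := fun i => (h i).natDegree) (Finset.mem_univ i)
  have he0 : 0 < e := by
    by_contra hcon
    have hzero : e = 0 := by omega
    obtain ⟨i, j, hij⟩ := hn
    apply hij
    have hconst : ∀ i, h i = C ((h i).coeff 0) := fun i =>
      eq_C_of_natDegree_eq_zero (by have := hle i; omega)
    obtain ⟨v, hv⟩ : ∃ v : Fin 4 → K, ∀ i, h i = C (v i) := ⟨_, hconst⟩
    have hv2 : ∀ i, aeval t d * algebraMap K _ (v i) =
        c * algebraMap K (AlgebraicClosure K) (x i) := by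
      intro i
      rw [← hgt i, hh i, hv i, map_mul, aeval_C]
    have h3 : x i * v j = x j * v i := by
      apply (algebraMap K (AlgebraicClosure K)).injective
      rw [map_mul, map_mul]
      have e1 := hv2 i
      have e2 := hv2 j
      have : aeval t d * (c * (algebraMap K (AlgebraicClosure K) (x i) *
        algebraMap K (AlgebraicClosure K) (v j))) = aeval t d *
        (c * (algebraMap K (AlgebraicClosure K) (x j) *
        algebraMap K (AlgebraicClosure K) (v i))) := by
        linear_combination c * (algebraMap K (AlgebraicClosure K) (x i)) * e2 -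
          c * (algebraMap K (AlgebraicClosure K) (x j)) * e1
      exact mul_left_cancel₀ hc (mul_left_cancel₀ hdt this)
    rw [hh i, hh j, hv i, hv j]
    have h4 := congrArg (C : K → K[X]) h3
    rw [C_mul, C_mul] at h4
    linear_combination d * h4
  refine ⟨e, fun i => homog e (h i), he0, fun i => homog_isHomogeneous e (h i), ?_, ?_, ?_⟩
  · -- no common zeros
    intro p hp
    by_cases h1 : p 1 = 0
    · obtain ⟨i, -, hi⟩ := Finset.exists_mem_eq_sup Finset.univ ⟨0, Finset.mem_univ _⟩
        (fun i => (h i).natDegree)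
      rw [← he] at hi
      have h2 := hp i
      rw [aeval_homog_zero e (h i) p h1] at h2
      have h3 : (h i).coeff e ≠ 0 := by
        rw [hi]
        apply leadingCoeff_ne_zero.mpr
        intro h0
        rw [h0, natDegree_zero] at hi
        omega
      have h4 := (mul_eq_zero.mp h2).resolve_left ((_root_.map_ne_zero _).mpr h3)
      have h5 := pow_eq_zero_iff (by omega : e ≠ 0) |>.mp h4
      funext k
      fin_cases k
      · exact h5
      · exact h1
    · exfalso
      have h2 : ∀ i, aeval (p 0 / p 1) (h i) = 0 := by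
        intro i
        have h3 := hp i
        rw [aeval_homog e (h i) (hle i) p h1] at h3
        exact (mul_eq_zero.mp h3).resolve_left (pow_ne_zero _ h1)
      have h4 := congrArg (aeval (p 0 / p 1)) hbez
      rw [map_sum, map_one] at h4
      simp only [map_mul, h2, mul_zero, Finset.sum_const_zero] at h4
      exact zero_ne_one h4
  · -- the curve lies on the surface
    have hP : MvPolynomial.map (algebraMap K (AlgebraicClosure K))
        (MvPolynomial.X 1 * MvPolynomial.aeval (fun i => homog e (h i)) F) = 0 := by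
      apply MvPolynomial.funext
      intro q
      rw [MvPolynomial.eval_map, ← MvPolynomial.aeval_def, map_zero, map_mul,
        MvPolynomial.aeval_X]
      by_cases h1 : q 1 = 0
      · rw [h1, zero_mul]
      · have h2 : MvPolynomial.aeval q (MvPolynomial.aeval (fun i => homog e (h i)) F) =
            MvPolynomial.aeval (fun i => MvPolynomial.aeval q (homog e (h i))) F := by
          rw [← MvPolynomial.comp_aeval_apply]
        have h3 : (fun i => MvPolynomial.aeval q (homog e (h i))) =
            fun i => q 1 ^ e * aeval (q 0 / q 1) (h i) :=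
          funext fun i => aeval_homog e (h i) (hle i) q h1
        have h4 : MvPolynomial.aeval (fun i => aeval (q 0 / q 1) (h i)) F =
            aeval (q 0 / q 1) (MvPolynomial.aeval h F) := by
          rw [← MvPolynomial.comp_aeval_apply]
        rw [h2, h3, aeval_scale F hF, h4, hFh, map_zero, mul_zero, mul_zero]
    have h5 : MvPolynomial.X 1 * MvPolynomial.aeval (fun i => homog e (h i)) F = 0 :=
      MvPolynomial.map_injective _ (algebraMap K (AlgebraicClosure K)).injective
        (by rw [hP, map_zero])
    exact (mul_eq_zero.mp h5).resolve_left (MvPolynomial.X_ne_zero 1)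
  · refine ⟨![t, 1], c / aeval t d, div_ne_zero hc hdt, ?_⟩
    intro i
    rw [aeval_homog e (h i) (hle i) _ (by simp)]
    have h1 := hgt i
    rw [hh i, map_mul] at h1
    simp only [Matrix.cons_val_zero, Matrix.cons_val_one, Matrix.cons_val_fin_one, one_pow,
      one_mul, div_one]
    field_simp
    linear_combination h1

end Hom

end Pool.Agent.Y214.CS
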