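import Mathlib

/-!
Algebraic identities for rational curves on cubic surfaces with an Eckardt point
whose three lines are conjugate.
-/

set_option autoImplicit false

namespace Pool.Agent.Y214.CS

section Alg

variable {R : Type*} [CommRing R]

/-- the cubic form `W (X² + λ X l + κ l²) + W (α Y² + β Y Z + γ Z²) + N (Y, Z)`,
with `l = W + m₁ Y + m₂ Z` -/
def G (lam kap m1 m2 al be ga n0 n1 n2 n3 X Y Z W : R) : R :=
  W * (X ^ 2 + lam * X * (W + m1 * Y + m2 * Z) + kap * (W + m1 * Y + m2 * Z) ^ 2) +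
    W * (al * Y ^ 2 + be * Y * Z + ga * Z ^ 2) +
    (n0 * Y ^ 3 + n1 * Y ^ 2 * Z + n2 * Y * Z ^ 2 + n3 * Z ^ 3)

/-- the derivative of `G` at the point `a` in the direction `b` -/
def G1 (lam kap m1 m2 al be ga n0 n1 n2 n3 X Y Z W x y z w : R) : R :=
  w * (X ^ 2 + lam * X * (W + m1 * Y + m2 * Z) + kap * (W + m1 * Y + m2 * Z) ^ 2) +
  W * (2 * X * x + lam * x * (W + m1 * Y + m2 * Z) + lam * X * (w + m1 * y + m2 * z)
    + 2 * kap * (W + m1 * Y + m2 * Z) * (w + m1 * y + m2 * z)) +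
    w * (al * Y ^ 2 + be * Y * Z + ga * Z ^ 2) +
    W * (2 * al * Y * y + be * y * Z + be * Y * z + 2 * ga * Z * z) +
    (3 * n0 * Y ^ 2 * y + 2 * n1 * Y * y * Z + n1 * Y ^ 2 * z + n2 * y * Z ^ 2 +
      2 * n2 * Y * Z * z + 3 * n3 * Z ^ 2 * z)

theorem G_comb (lam kap m1 m2 al be ga n0 n1 n2 n3 X Y Z W x y z w p q : R) :
    G lam kap m1 m2 al be ga n0 n1 n2 n3 (p * X + q * x) (p * Y + q * y) (p * Z + q * z)
      (p * W + q * w) =
    p ^ 3 * G lam kap m1 m2 al be ga n0 n1 n2 n3 X Y Z W +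
    p ^ 2 * q * G1 lam kap m1 m2 al be ga n0 n1 n2 n3 X Y Z W x y z w +
    p * q ^ 2 * G1 lam kap m1 m2 al be ga n0 n1 n2 n3 x y z w X Y Z W +
    q ^ 3 * G lam kap m1 m2 al be ga n0 n1 n2 n3 x y z w := by
  unfold G G1
  ring

theorem third (f0 f1 f2 f3 lam kap : R) (h0 : f0 - kap * f2 + lam * kap * f3 = 0)
    (h1 : f1 - lam * f2 + (lam ^ 2 - kap) * f3 = 0) :
    f3 ^ 3 * f0 + f3 ^ 2 * (-(f2 - lam * f3)) * f1 + f3 * (-(f2 - lam * f3)) ^ 2 * f2 +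
      (-(f2 - lam * f3)) ^ 3 * f3 = 0 := by
  linear_combination f3 ^ 3 * h0 + f3 ^ 2 * (-(f2 - lam * f3)) * h1

end Alg

end Pool.Agent.Y214.CS
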