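import Mathlib
import Pool.Agent.Y214.CS.Ident

/-!
Descent: third points of pairs of conjugate points on a cubic surface.
-/

set_option autoImplicit false

namespace Pool.Agent.Y214.CS

section Alg

variable {R : Type*} [CommRing R]

theorem indep (p q x y : R)
    (h : algebraMap R (QuadraticAlgebra R p q) x +
      algebraMap R (QuadraticAlgebra R p q) y * QuadraticAlgebra.omega = 0) : x = 0 ∧ y = 0 := by
  constructor
  · have := congrArg QuadraticAlgebra.re h
    simpa using this
  · have := congrArg QuadraticAlgebra.im h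
    simpa using this

theorem G_map {S : Type*} [CommRing S] (f : R →+* S)
    (lam kap m1 m2 al be ga n0 n1 n2 n3 X Y Z W : R) :
    f (G lam kap m1 m2 al be ga n0 n1 n2 n3 X Y Z W) =
      G (f lam) (f kap) (f m1) (f m2) (f al) (f be) (f ga) (f n0) (f n1) (f n2) (f n3)
        (f X) (f Y) (f Z) (f W) := by
  unfold G
  simp only [map_add, map_mul, map_pow]

theorem G1_map {S : Type*} [CommRing S] (f : R →+* S)
    (lam kap m1 m2 al be ga n0 n1 n2 n3 X Y Z W x y z w : R) :
    f (G1 lam kap m1 m2 al be ga n0 n1 n2 n3 X Y Z W x y z w) =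
      G1 (f lam) (f kap) (f m1) (f m2) (f al) (f be) (f ga) (f n0) (f n1) (f n2) (f n3)
        (f X) (f Y) (f Z) (f W) (f x) (f y) (f z) (f w) := by
  unfold G1
  simp only [map_add, map_mul, map_pow, map_ofNat]

/-- If the point `a + ω b` of the surface `G = 0` is defined over a quadratic algebra, then the third
point on the line through it and its conjugate lies on the surface. -/
theorem descend (lam kap m1 m2 al be ga n0 n1 n2 n3 X Y Z W x y z w : R)
    (h : G (algebraMap R (QuadraticAlgebra R (-kap) (-lam)) lam) (algebraMap R _ kap)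
      (algebraMap R _ m1) (algebraMap R _ m2) (algebraMap R _ al) (algebraMap R _ be)
      (algebraMap R _ ga) (algebraMap R _ n0) (algebraMap R _ n1) (algebraMap R _ n2)
      (algebraMap R _ n3) (algebraMap R _ X + QuadraticAlgebra.omega * algebraMap R _ x)
      (algebraMap R _ Y + QuadraticAlgebra.omega * algebraMap R _ y)
      (algebraMap R _ Z + QuadraticAlgebra.omega * algebraMap R _ z)
      (algebraMap R _ W + QuadraticAlgebra.omega * algebraMap R _ w) = 0)
    (f2 f3 : R) (hf2 : f2 = G1 lam kap m1 m2 al be ga n0 n1 n2 n3 x y z w X Y Z W)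
    (hf3 : f3 = G lam kap m1 m2 al be ga n0 n1 n2 n3 x y z w) :
    G lam kap m1 m2 al be ga n0 n1 n2 n3
      (f3 * X + -(f2 - lam * f3) * x) (f3 * Y + -(f2 - lam * f3) * y)
      (f3 * Z + -(f2 - lam * f3) * z) (f3 * W + -(f2 - lam * f3) * w) = 0 := by
  set ι := algebraMap R (QuadraticAlgebra R (-kap) (-lam)) with hι
  set om : QuadraticAlgebra R (-kap) (-lam) := QuadraticAlgebra.omega with hom
  have hω : om * om = -ι kap - ι lam * om := by
    have := QuadraticAlgebra.omega_mul_omega_eq_mk (a := -kap) (b := -lam)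
    rw [← hom] at this
    rw [this]
    ext <;> simp [hι, hom]
  have h1 := G_comb (ι lam) (ι kap) (ι m1) (ι m2) (ι al) (ι be) (ι ga) (ι n0) (ι n1) (ι n2) (ι n3)
    (ι X) (ι Y) (ι Z) (ι W) (ι x) (ι y) (ι z) (ι w) 1 om
  simp only [one_mul, one_pow] at h1
  rw [h] at h1
  rw [← G_map, ← G_map, ← G1_map, ← G1_map] at h1
  set f0 := G lam kap m1 m2 al be ga n0 n1 n2 n3 X Y Z W with hf0
  set f1 := G1 lam kap m1 m2 al be ga n0 n1 n2 n3 X Y Z W x y z w with hf1
  rw [← hf2, ← hf3] at h1
  have h2 : ι (f0 - kap * f2 + lam * kap * f3) +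
      ι (f1 - lam * f2 + (lam ^ 2 - kap) * f3) * om = 0 := by
    simp only [map_add, map_sub, map_mul, map_pow]
    linear_combination -h1 + (- ι f2 - ι f3 * om + ι f3 * ι lam) * hω
  obtain ⟨h3, h4⟩ := indep _ _ _ _ h2
  rw [G_comb, ← hf2, ← hf3, ← hf0, ← hf1]
  exact third f0 f1 f2 f3 lam kap h3 h4

end Alg

end Pool.Agent.Y214.CS
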