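import Mathlib
import Pool.Agent.Y214.CS.Descent

/-!
A rational curve on the cubic surface `G = 0`.
-/

set_option autoImplicit false

namespace Pool.Agent.Y214.CS

section Alg

variable {R : Type*} [CommRing R]

def cu (kap al be ga T : R) : R := al * (1 - kap * T ^ 2) + be * T + ga * T ^ 2

def cv (lam al be T : R) : R := al * (2 * T - lam * T ^ 2) + be * T ^ 2

def cNA (lam kap n0 n1 n2 n3 T : R) : R :=
  n0 * (1 - 3 * kap * T ^ 2 + lam * kap * T ^ 3) + n1 * (T - kap * T ^ 3) + n2 * T ^ 2 + n3 * T ^ 3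

def cNB (lam kap n0 n1 n2 T : R) : R :=
  n0 * (3 * T - 3 * lam * T ^ 2 + (lam ^ 2 - kap) * T ^ 3) + n1 * (2 * T ^ 2 - lam * T ^ 3) +
    n2 * T ^ 3

def cAY (lam kap al be ga T : R) : R := cu kap al be ga T - kap * T * cv lam al be T
def cBY (lam kap al be ga T : R) : R :=
  cv lam al be T + T * cu kap al be ga T - lam * T * cv lam al be T
def cAZ (kap al be ga T : R) : R := T * cu kap al be ga T
def cBZ (lam al be T : R) : R := T * cv lam al be T
def clA (lam kap m1 m2 al be ga n0 n1 n2 n3 T : R) : R :=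
  -cNA lam kap n0 n1 n2 n3 T + m1 * cAY lam kap al be ga T + m2 * cAZ kap al be ga T
def clB (lam kap m1 m2 al be ga n0 n1 n2 T : R) : R :=
  -cNB lam kap n0 n1 n2 T + m1 * cBY lam kap al be ga T + m2 * cBZ lam al be T
def cAX (lam kap m1 m2 al be ga n0 n1 n2 T : R) : R :=
  - kap * clB lam kap m1 m2 al be ga n0 n1 n2 T
def cBX (lam kap m1 m2 al be ga n0 n1 n2 n3 T : R) : R :=
  clA lam kap m1 m2 al be ga n0 n1 n2 n3 T - lam * clB lam kap m1 m2 al be ga n0 n1 n2 T

theorem aux_q (om lam kap al be ga T : R) (h : om * om = -kap - lam * om) :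
    cu kap al be ga T + om * cv lam al be T =
      al * (1 + om * T) ^ 2 + be * (1 + om * T) * T + ga * T ^ 2 := by
  unfold cu cv
  linear_combination -(al * T ^ 2) * h

theorem aux_n (om lam kap n0 n1 n2 n3 T : R) (h : om * om = -kap - lam * om) :
    cNA lam kap n0 n1 n2 n3 T + om * cNB lam kap n0 n1 n2 T =
      n0 * (1 + om * T) ^ 3 + n1 * (1 + om * T) ^ 2 * T + n2 * (1 + om * T) * T ^ 2 +
        n3 * T ^ 3 := by
  unfold cNA cNB
  linear_combination -(n0 * (3 * T ^ 2 + T ^ 3 * (om - lam)) + n1 * T ^ 3) * h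

theorem aux_Y (om lam kap T u v : R) (h : om * om = -kap - lam * om) :
    (u - kap * T * v) + om * (v + T * u - lam * T * v) = (1 + om * T) * (u + om * v) := by
  linear_combination -(T * v) * h

theorem aux_X (om lam kap a b : R) (h : om * om = -kap - lam * om) :
    - kap * b + om * (a - lam * b) = om * (a + om * b) := by
  linear_combination -b * h

theorem aux_G (om lam kap m1 m2 al be ga n0 n1 n2 n3 s t q n : R)
    (h : om * om = -kap - lam * om)
    (hq : q = al * s ^ 2 + be * s * t + ga * t ^ 2)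
    (hn : n = n0 * s ^ 3 + n1 * s ^ 2 * t + n2 * s * t ^ 2 + n3 * t ^ 3) :
    G lam kap m1 m2 al be ga n0 n1 n2 n3 (om * (-n + m1 * (s * q) + m2 * (t * q)))
      (s * q) (t * q) (-n) = 0 := by
  unfold G
  have e2 : al * (s * q) ^ 2 + be * (s * q) * (t * q) + ga * (t * q) ^ 2 = q ^ 3 := by
    have : q ^ 3 = q ^ 2 * (al * s ^ 2 + be * s * t + ga * t ^ 2) := by rw [← hq]; ring
    rw [this]; ring
  have e3 : n0 * (s * q) ^ 3 + n1 * (s * q) ^ 2 * (t * q) + n2 * (s * q) * (t * q) ^ 2 +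
      n3 * (t * q) ^ 3 = q ^ 3 * n := by
    rw [hn]; ring
  rw [e2, e3]
  linear_combination (-n * (-n + m1 * (s * q) + m2 * (t * q)) ^ 2) * h

theorem onS' {S : Type*} [CommRing S] (ι : R →+* S) (om : S)
    (lam kap m1 m2 al be ga n0 n1 n2 n3 T : R) (hω : om * om = -ι kap - ι lam * om) :
    G (ι lam) (ι kap) (ι m1) (ι m2) (ι al) (ι be) (ι ga) (ι n0) (ι n1) (ι n2) (ι n3)
      (ι (cAX lam kap m1 m2 al be ga n0 n1 n2 T) +
        om * ι (cBX lam kap m1 m2 al be ga n0 n1 n2 n3 T))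
      (ι (cAY lam kap al be ga T) + om * ι (cBY lam kap al be ga T))
      (ι (cAZ kap al be ga T) + om * ι (cBZ lam al be T))
      (ι (-cNA lam kap n0 n1 n2 n3 T) + om * ι (-cNB lam kap n0 n1 n2 T)) = 0 := by
  have eu : ι (cu kap al be ga T) = cu (ι kap) (ι al) (ι be) (ι ga) (ι T) := by simp [cu, map_ofNat]
  have ev : ι (cv lam al be T) = cv (ι lam) (ι al) (ι be) (ι T) := by simp [cv, map_ofNat]
  have eNA : ι (cNA lam kap n0 n1 n2 n3 T) =
      cNA (ι lam) (ι kap) (ι n0) (ι n1) (ι n2) (ι n3) (ι T) := by simp [cNA, map_ofNat]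
  have eNB : ι (cNB lam kap n0 n1 n2 T) =
      cNB (ι lam) (ι kap) (ι n0) (ι n1) (ι n2) (ι T) := by simp [cNB, map_ofNat]
  have e1 := aux_q om (ι lam) (ι kap) (ι al) (ι be) (ι ga) (ι T) hω
  have e2 := aux_n om (ι lam) (ι kap) (ι n0) (ι n1) (ι n2) (ι n3) (ι T) hω
  rw [← eu, ← ev] at e1
  rw [← eNA, ← eNB] at e2
  obtain ⟨u, hu⟩ : ∃ u, u = ι (cu kap al be ga T) := ⟨_, rfl⟩
  obtain ⟨v, hv⟩ : ∃ v, v = ι (cv lam al be T) := ⟨_, rfl⟩
  obtain ⟨NA, hNA⟩ : ∃ v, v = ι (cNA lam kap n0 n1 n2 n3 T) := ⟨_, rfl⟩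
  obtain ⟨NB, hNB⟩ : ∃ v, v = ι (cNB lam kap n0 n1 n2 T) := ⟨_, rfl⟩
  rw [← hu, ← hv] at e1
  rw [← hNA, ← hNB] at e2
  have key := aux_G om (ι lam) (ι kap) (ι m1) (ι m2) (ι al) (ι be) (ι ga) (ι n0) (ι n1) (ι n2)
    (ι n3) (1 + om * ι T) (ι T) (u + om * v) (NA + om * NB) hω e1 e2
  have eY : ι (cAY lam kap al be ga T) + om * ι (cBY lam kap al be ga T) =
      (1 + om * ι T) * (u + om * v) := by
    rw [← aux_Y om (ι lam) (ι kap) (ι T) u v hω]
    simp only [cAY, cBY, map_add, map_mul, map_sub, ← hu, ← hv]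
  have eZ : ι (cAZ kap al be ga T) + om * ι (cBZ lam al be T) = ι T * (u + om * v) := by
    simp only [cAZ, cBZ, map_mul, ← hu, ← hv]
    ring
  have eW : ι (-cNA lam kap n0 n1 n2 n3 T) + om * ι (-cNB lam kap n0 n1 n2 T) =
      -(NA + om * NB) := by
    simp only [map_neg, ← hNA, ← hNB]
    ring
  have eL : ι (clA lam kap m1 m2 al be ga n0 n1 n2 n3 T) +
      om * ι (clB lam kap m1 m2 al be ga n0 n1 n2 T) =
      -(NA + om * NB) + ι m1 * ((1 + om * ι T) * (u + om * v)) +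
        ι m2 * (ι T * (u + om * v)) := by
    rw [← eY, ← eZ, ← eW]
    simp only [clA, clB, map_add, map_mul, map_neg]
    ring
  have eX : ι (cAX lam kap m1 m2 al be ga n0 n1 n2 T) +
      om * ι (cBX lam kap m1 m2 al be ga n0 n1 n2 n3 T) =
        om * (-(NA + om * NB) + ι m1 * ((1 + om * ι T) * (u + om * v)) +
        ι m2 * (ι T * (u + om * v))) := by
    rw [← eL, ← aux_X om (ι lam) (ι kap) _ _ hω]
    simp only [cAX, cBX, map_sub, map_mul, map_neg]
  rw [eX, eY, eZ, eW]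
  exact key

/-- the curve lies on the surface over the quadratic algebra -/
theorem onS (lam kap m1 m2 al be ga n0 n1 n2 n3 T : R) :
    G (algebraMap R (QuadraticAlgebra R (-kap) (-lam)) lam) (algebraMap R _ kap)
      (algebraMap R _ m1) (algebraMap R _ m2) (algebraMap R _ al) (algebraMap R _ be)
      (algebraMap R _ ga) (algebraMap R _ n0) (algebraMap R _ n1) (algebraMap R _ n2)
      (algebraMap R _ n3)
      (algebraMap R _ (cAX lam kap m1 m2 al be ga n0 n1 n2 T) +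
        QuadraticAlgebra.omega * algebraMap R _ (cBX lam kap m1 m2 al be ga n0 n1 n2 n3 T))
      (algebraMap R _ (cAY lam kap al be ga T) +
        QuadraticAlgebra.omega * algebraMap R _ (cBY lam kap al be ga T))
      (algebraMap R _ (cAZ kap al be ga T) +
        QuadraticAlgebra.omega * algebraMap R _ (cBZ lam al be T))
      (algebraMap R _ (-cNA lam kap n0 n1 n2 n3 T) +
        QuadraticAlgebra.omega * algebraMap R _ (-cNB lam kap n0 n1 n2 T)) = 0 := by
  apply onS'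
  rw [QuadraticAlgebra.omega_mul_omega_eq_mk (a := -kap) (b := -lam)]
  ext <;> simp

/-- the identity `A_Y B_Z - A_Z B_Y = - T² Norm` -/
theorem minor (lam kap al be ga T : R) :
    cAY lam kap al be ga T * cBZ lam al be T - cAZ kap al be ga T * cBY lam kap al be ga T =
      - T ^ 2 * (cu kap al be ga T ^ 2 - lam * cu kap al be ga T * cv lam al be T +
        kap * cv lam al be T ^ 2) := by
  unfold cAY cBZ cAZ cBY
  ring

end Alg

end Pool.Agent.Y214.CS
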