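import Mathlib
import Pool.Agent.Y214.CS.TI

/-!
Rational curves through the point `(1, 0, 0, 0)`.
-/

set_option autoImplicit false

open Polynomial

namespace Pool.Agent.Y214.CS

variable {K : Type*} [Field K]

/-- the surface `F = 0` contains a parametrised curve through the point `(1, 0, 0, 0)` -/
def Par (F : K[X] → K[X] → K[X] → K[X] → K[X]) : Prop :=
  ∃ (x y z w : K[X]) (t : AlgebraicClosure K), F x y z w = 0 ∧ aeval t x ≠ 0 ∧ aeval t y = 0 ∧
    aeval t z = 0 ∧ aeval t w = 0 ∧ (y ≠ 0 ∨ z ≠ 0 ∨ w ≠ 0)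

theorem par_of_zero {F : K[X] → K[X] → K[X] → K[X] → K[X]} (x y z w : K[X]) (h : F x y z w = 0)
    (hx : x.eval 0 ≠ 0) (hy : y.eval 0 = 0) (hz : z.eval 0 = 0) (hw : w.eval 0 = 0)
    (hn : y ≠ 0 ∨ z ≠ 0 ∨ w ≠ 0) : Par F := by
  have key : ∀ p : K[X], aeval (0 : AlgebraicClosure K) p =
      algebraMap K (AlgebraicClosure K) (p.eval 0) := by
    intro p
    rw [← map_zero (algebraMap K (AlgebraicClosure K)), aeval_algebraMap_apply]
    simp
  refine ⟨x, y, z, w, 0, h, ?_, ?_, ?_, ?_, hn⟩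
  · rw [key]
    simpa using hx
  · rw [key, hy, map_zero]
  · rw [key, hz, map_zero]
  · rw [key, hw, map_zero]

theorem norm_ne_zero (lam kap al be ga : K) (h : ¬ (al = 0 ∧ be = 0 ∧ ga = 0)) :
    cu (C kap) (C al) (C be) (C ga) X ^ 2 - C lam * cu (C kap) (C al) (C be) (C ga) X *
      cv (C lam) (C al) (C be) X + C kap * cv (C lam) (C al) (C be) X ^ 2 ≠ (0 : K[X]) := by
  intro h0
  by_cases hal : al = 0
  · subst hal
    have h1 : (X : K[X]) ^ 2 * ((C be + C ga * X) ^ 2 - C lam * (C be + C ga * X) * (C be * X) +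
        C kap * (C be * X) ^ 2) = 0 := by
      rw [← h0]
      simp only [cu, cv, map_zero]
      ring
    have h2 : (C be + C ga * X) ^ 2 - C lam * (C be + C ga * X) * (C be * X) +
        C kap * (C be * X) ^ 2 = (0 : K[X]) := by
      rcases mul_eq_zero.mp h1 with h | h
      · exact absurd h (pow_ne_zero _ X_ne_zero)
      · exact h
    have h3 := congrArg (Polynomial.eval 0) h2
    simp only [eval_add, eval_sub, eval_mul, eval_pow, eval_C, eval_X, eval_zero] at h3
    have hbe : be = 0 := by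
      have : be ^ 2 = 0 := by linear_combination h3
      exact pow_eq_zero_iff (two_ne_zero) |>.mp this
    subst hbe
    have h4 : (C ga * X) ^ 2 = (0 : K[X]) := by
      rw [← h2]
      simp only [map_zero]
      ring
    have h5 : C ga * X = (0 : K[X]) := pow_eq_zero_iff (two_ne_zero) |>.mp h4
    have h6 : ga = 0 := by
      rcases mul_eq_zero.mp h5 with h | h
      · exact C_eq_zero.mp h
      · exact absurd h X_ne_zero
    exact h ⟨rfl, rfl, h6⟩
  · have h3 := congrArg (Polynomial.eval 0) h0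
    simp only [cu, cv, eval_add, eval_sub, eval_mul, eval_pow, eval_C, eval_X, eval_zero,
      eval_one, eval_ofNat] at h3
    have : al ^ 2 = 0 := by linear_combination h3
    exact hal (pow_eq_zero_iff (two_ne_zero) |>.mp this)

theorem par_G (lam kap m1 m2 al be ga n0 n1 n2 n3 : K) (h : ¬ (al = 0 ∧ be = 0 ∧ ga = 0))
    (hn0 : n0 ≠ 0) (hl : -n0 + m1 * al ≠ 0) :
    Par (fun X Y Z W : K[X] => G (C lam) (C kap) (C m1) (C m2) (C al) (C be) (C ga) (C n0) (C n1)
      (C n2) (C n3) X Y Z W) := by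
  set AX : K[X] := cAX (C lam) (C kap) (C m1) (C m2) (C al) (C be) (C ga) (C n0) (C n1) (C n2) X
    with hAX
  set BX : K[X] := cBX (C lam) (C kap) (C m1) (C m2) (C al) (C be) (C ga) (C n0) (C n1) (C n2)
    (C n3) X with hBX
  set AY : K[X] := cAY (C lam) (C kap) (C al) (C be) (C ga) X with hAY
  set BY : K[X] := cBY (C lam) (C kap) (C al) (C be) (C ga) X with hBY
  set AZ : K[X] := cAZ (C kap) (C al) (C be) (C ga) X with hAZ
  set BZ : K[X] := cBZ (C lam) (C al) (C be) X with hBZ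
  set AW : K[X] := -cNA (C lam) (C kap) (C n0) (C n1) (C n2) (C n3) X with hAW
  set BW : K[X] := -cNB (C lam) (C kap) (C n0) (C n1) (C n2) X with hBW
  have eAX : AX.eval 0 = 0 := by
    simp [hAX, cAX, clB, cNB, cBY, cBZ, cv, cu]
  have eBX : BX.eval 0 = -n0 + m1 * al := by
    simp [hBX, cBX, clA, clB, cNA, cNB, cAY, cAZ, cBY, cBZ, cv, cu]
  have eAY : AY.eval 0 = al := by simp [hAY, cAY, cu, cv]
  have eBY : BY.eval 0 = 0 := by simp [hBY, cBY, cu, cv]
  have eAZ : AZ.eval 0 = 0 := by simp [hAZ, cAZ, cu]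
  have eBZ : BZ.eval 0 = 0 := by simp [hBZ, cBZ, cv]
  have eAW : AW.eval 0 = -n0 := by simp [hAW, cNA]
  have eBW : BW.eval 0 = 0 := by simp [hBW, cNB]
  obtain ⟨f3, hf3⟩ : ∃ f3 : K[X], f3 = G (C lam) (C kap) (C m1) (C m2) (C al) (C be) (C ga)
    (C n0) (C n1) (C n2) (C n3) BX BY BZ BW := ⟨_, rfl⟩
  obtain ⟨f2, hf2⟩ : ∃ f2 : K[X], f2 = G1 (C lam) (C kap) (C m1) (C m2) (C al) (C be) (C ga)
    (C n0) (C n1) (C n2) (C n3) BX BY BZ BW AX AY AZ AW := ⟨_, rfl⟩
  have ef3 : f3.eval 0 = 0 := by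
    rw [hf3]
    simp [G, eBX, eBY, eBZ, eBW]
  have ef2 : f2.eval 0 = -n0 * (-n0 + m1 * al) ^ 2 := by
    rw [hf2]
    simp [G1, eBX, eBY, eBZ, eBW, eAX, eAY, eAZ, eAW]
  have key := descend (C lam) (C kap) (C m1) (C m2) (C al) (C be) (C ga) (C n0) (C n1) (C n2)
    (C n3) AX AY AZ AW BX BY BZ BW
    (onS (C lam) (C kap) (C m1) (C m2) (C al) (C be) (C ga) (C n0) (C n1) (C n2) (C n3) X)
    f2 f3 hf2 hf3
  have hq : -(f2 - C lam * f3) ≠ 0 := by
    intro h0
    have := congrArg (Polynomial.eval 0) h0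
    simp only [eval_neg, eval_sub, eval_mul, ef2, ef3, eval_zero, mul_zero, sub_zero] at this
    have h2 : n0 * (-n0 + m1 * al) ^ 2 = 0 := by linear_combination this
    rcases mul_eq_zero.mp h2 with h3 | h3
    · exact hn0 h3
    · exact hl (pow_eq_zero_iff two_ne_zero |>.mp h3)
  refine par_of_zero _ _ _ _ key ?_ ?_ ?_ ?_ ?_
  · simp only [eval_add, eval_mul, eval_neg, eval_sub, ef2, ef3, eAX, eBX, eval_C]
    have : 0 * 0 + -(-n0 * (-n0 + m1 * al) ^ 2 - lam * 0) * (-n0 + m1 * al) =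
        n0 * (-n0 + m1 * al) ^ 3 := by ring
    rw [this]
    exact mul_ne_zero hn0 (pow_ne_zero _ hl)
  · simp only [eval_add, eval_mul, ef3, eBY]; ring
  · simp only [eval_add, eval_mul, ef3, eBZ]; ring
  · simp only [eval_add, eval_mul, ef3, eBW]; ring
  · by_contra hcon
    push Not at hcon
    obtain ⟨hy, hz, -⟩ := hcon
    have hm : -(f2 - C lam * f3) * (AY * BZ - AZ * BY) = 0 := by
      linear_combination AY * hz - AZ * hy
    rcases mul_eq_zero.mp hm with h1 | h1
    · exact hq h1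
    · have h2 := minor (C lam) (C kap) (C al) (C be) (C ga) (X : K[X])
      rw [← hAY, ← hAZ, ← hBY, ← hBZ, h1] at h2
      have h3 := norm_ne_zero lam kap al be ga h
      have h4 : (X : K[X]) ^ 2 * (cu (C kap) (C al) (C be) (C ga) X ^ 2 -
        C lam * cu (C kap) (C al) (C be) (C ga) X *
        cv (C lam) (C al) (C be) X + C kap * cv (C lam) (C al) (C be) X ^ 2) = 0 := by
        linear_combination h2
      rcases mul_eq_zero.mp h4 with h5 | h5
      · exact absurd h5 (pow_ne_zero _ X_ne_zero)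
      · exact h3 h5

end Pool.Agent.Y214.CS
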