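import Mathlib
import Pool.Agent.Y214.CS.Par

/-!
Rational curves on cubic surfaces `W (X² + X L + Q) + N (Y, Z) = 0`, `N` without zeros.
-/

set_option autoImplicit false

open Polynomial

namespace Pool.Agent.Y214.CS

variable {K : Type*} [Field K]

theorem par_shift {F : K[X] → K[X] → K[X] → K[X] → K[X]} (a b c y0 z0 : K)
    (h : Par (fun X Y Z W => F (X + C a * Y + C b * Z + C c * W) (Y + C y0 * W)
      (Z + C z0 * W) W)) : Par F := by
  obtain ⟨x, y, z, w, t, hF, hx, hy, hz, hw, hn⟩ := h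
  refine ⟨_, _, _, _, t, hF, ?_, ?_, ?_, hw, ?_⟩
  · simpa [hy, hz, hw] using hx
  · simp [hy, hw]
  · simp [hz, hw]
  · by_cases hw0 : w = 0
    · subst hw0
      simpa using hn
    · exact Or.inr (Or.inr hw0)

theorem par_congr {F F' : K[X] → K[X] → K[X] → K[X] → K[X]} (h : Par F')
    (e : ∀ X Y Z W, F X Y Z W = F' X Y Z W) : Par F := by
  obtain ⟨x, y, z, w, t, hF, h'⟩ := h
  exact ⟨x, y, z, w, t, by rw [e]; exact hF, h'⟩

theorem solve_lin {c : K} (hc : c ≠ 0) (v : K) : ∃ m : K, c * m = v :=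
  ⟨v / c, mul_div_cancel₀ v hc⟩

/-- the case of a field of characteristic different from two -/
theorem par_odd (h2 : (2 : K) ≠ 0) (n0 n1 n2 n3 h1 h2' h3 h4 h5 h6 : K)
    (hN : ∀ y z : K, n0 * y ^ 3 + n1 * y ^ 2 * z + n2 * y * z ^ 2 + n3 * z ^ 3 = 0 →
      y = 0 ∧ z = 0)
    (hcube : ∀ a : K, (3 : K) = 0 → ∃ b : K, b ^ 3 = a)
    (hna : ∀ y z : K, h1 * y ^ 2 + h2' * y * z + h3 * z ^ 2 + h4 * y + h5 * z + h6 +
      (n0 * y ^ 3 + n1 * y ^ 2 * z + n2 * y * z ^ 2 + n3 * z ^ 3) ≠ 0) :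
    Par (fun X Y Z W : K[X] => W * (X ^ 2 + (C h1 * Y ^ 2 + C h2' * Y * Z + C h3 * Z ^ 2 +
      C h4 * Y * W + C h5 * Z * W + C h6 * W ^ 2)) +
      (C n0 * Y ^ 3 + C n1 * Y ^ 2 * Z + C n2 * Y * Z ^ 2 + C n3 * Z ^ 3)) := by
  have hn0 : n0 ≠ 0 := by
    intro h
    have := (hN 1 0 (by rw [h]; ring)).1
    exact one_ne_zero this
  -- the coefficients after the translation
  by_contra hcon
  have key : ∀ y0 z0 : K, (h2' + 2 * n1 * y0 + 2 * n2 * z0) ^ 2 -
      4 * (h1 + 3 * n0 * y0 + n1 * z0) * (h3 + n2 * y0 + 3 * n3 * z0) = 0 := by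
    intro y0 z0
    obtain ⟨kap, hkap⟩ : ∃ kap, kap = h1 * y0 ^ 2 + h2' * y0 * z0 + h3 * z0 ^ 2 + h4 * y0 +
      h5 * z0 + h6 + (n0 * y0 ^ 3 + n1 * y0 ^ 2 * z0 + n2 * y0 * z0 ^ 2 + n3 * z0 ^ 3) :=
        ⟨_, rfl⟩
    have hk : kap ≠ 0 := by rw [hkap]; exact hna y0 z0
    obtain ⟨m1, hm1⟩ : ∃ m1 : K, 2 * kap * m1 = 2 * h1 * y0 + h2' * z0 + h4 +
      (3 * n0 * y0 ^ 2 + 2 * n1 * y0 * z0 + n2 * z0 ^ 2) :=
      solve_lin (mul_ne_zero h2 hk) _
    obtain ⟨m2, hm2⟩ : ∃ m2 : K, 2 * kap * m2 = h2' * y0 + 2 * h3 * z0 + h5 +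
      (n1 * y0 ^ 2 + 2 * n2 * y0 * z0 + 3 * n3 * z0 ^ 2) :=
      solve_lin (mul_ne_zero h2 hk) _
    by_contra hd
    apply hcon
    apply par_shift 0 0 0 y0 z0
    have hal : ¬ (h1 + 3 * n0 * y0 + n1 * z0 - kap * m1 ^ 2 = 0 ∧
        h2' + 2 * n1 * y0 + 2 * n2 * z0 - 2 * kap * m1 * m2 = 0 ∧
        h3 + n2 * y0 + 3 * n3 * z0 - kap * m2 ^ 2 = 0) := by
      rintro ⟨e1, e2, e3⟩
      apply hd
      have e1' : h1 + 3 * n0 * y0 + n1 * z0 = kap * m1 ^ 2 := by linear_combination e1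
      have e2' : h2' + 2 * n1 * y0 + 2 * n2 * z0 = 2 * kap * m1 * m2 := by linear_combination e2
      have e3' : h3 + n2 * y0 + 3 * n3 * z0 = kap * m2 ^ 2 := by linear_combination e3
      rw [e1', e2', e3']
      ring
    have hl : -n0 + m1 * (h1 + 3 * n0 * y0 + n1 * z0 - kap * m1 ^ 2) ≠ 0 := by
      intro h0
      obtain ⟨al, hal⟩ : ∃ al, al = h1 + 3 * n0 * y0 + n1 * z0 - kap * m1 ^ 2 := ⟨_, rfl⟩
      rw [← hal] at h0
      apply hna (y0 - al / n0) z0
      have e1 : al / n0 * n0 = al := by field_simp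
      obtain ⟨r, hr⟩ : ∃ r, r = al / n0 := ⟨_, rfl⟩
      rw [← hr] at e1 ⊢
      have hm : m1 * r = 1 := by
        have : n0 * (m1 * r - 1) = 0 := by linear_combination h0 + m1 * e1
        rcases mul_eq_zero.mp this with h | h
        · exact absurd h hn0
        · linear_combination h
      linear_combination -hkap + r * hm1 + kap * (m1 * r - 1) * hm - r ^ 2 * hal - r ^ 2 * e1
    have hp := par_G 0 kap m1 m2 (h1 + 3 * n0 * y0 + n1 * z0 - kap * m1 ^ 2)
      (h2' + 2 * n1 * y0 + 2 * n2 * z0 - 2 * kap * m1 * m2)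
      (h3 + n2 * y0 + 3 * n3 * z0 - kap * m2 ^ 2) n0 n1 n2 n3 hal hn0 hl
    refine par_congr hp ?_
    intro X Y Z W
    have c1 := congrArg (C : K → K[X]) hm1
    have c2 := congrArg (C : K → K[X]) hm2
    have c3 := congrArg (C : K → K[X]) hkap
    simp only [map_add, map_mul, map_pow, map_ofNat] at c1 c2 c3
    simp only [G, map_add, map_mul, map_pow, map_ofNat, map_sub, map_zero]
    linear_combination (-W ^ 2 * Y) * c1 + (-W ^ 2 * Z) * c2 + (-W ^ 3) * c3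
  -- coefficients of the discriminant
  have k00 := key 0 0
  have k10 := key 1 0
  have k10' := key (-1) 0
  have k01 := key 0 1
  have k01' := key 0 (-1)
  have k11 := key 1 1
  have four : (4 : K) ≠ 0 := by
    have : (4 : K) = 2 * 2 := by norm_num
    rw [this]; exact mul_ne_zero h2 h2
  have eA : n1 ^ 2 = 3 * n0 * n2 := by
    have : (2 * 4 : K) * (n1 ^ 2 - 3 * n0 * n2) = 0 := by
      linear_combination k10 + k10' - 2 * k00
    rcases mul_eq_zero.mp this with h | h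
    · exact absurd h (mul_ne_zero h2 four)
    · linear_combination h
  have eC : n2 ^ 2 = 3 * n1 * n3 := by
    have : (2 * 4 : K) * (n2 ^ 2 - 3 * n1 * n3) = 0 := by
      linear_combination k01 + k01' - 2 * k00
    rcases mul_eq_zero.mp this with h | h
    · exact absurd h (mul_ne_zero h2 four)
    · linear_combination h
  have eB : n1 * n2 = 9 * n0 * n3 := by
    have : (4 : K) * (n1 * n2 - 9 * n0 * n3) = 0 := by
      linear_combination k11 - k10 - k01 + k00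
    rcases mul_eq_zero.mp this with h | h
    · exact absurd h four
    · linear_combination h
  by_cases h3' : (3 : K) = 0
  · have e1 : n1 = 0 := by
      have : n1 ^ 2 = 0 := by rw [eA, h3']; ring
      exact pow_eq_zero_iff two_ne_zero |>.mp this
    have e2 : n2 = 0 := by
      have : n2 ^ 2 = 0 := by rw [eC, h3']; ring
      exact pow_eq_zero_iff two_ne_zero |>.mp this
    obtain ⟨b, hb⟩ := hcube (-n3 / n0) h3'
    have := (hN b 1 (by rw [e1, e2, hb]; field_simp; ring)).2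
    exact one_ne_zero this
  · have := (hN (-n1) (3 * n0) (by
      linear_combination (2 * n0 * n1) * eA - 3 * n0 ^ 2 * eB)).2
    exact (mul_ne_zero h3' hn0) this

/-- the case of a field of characteristic two -/
theorem par_even (h2 : (2 : K) = 0) (lam n0 n1 n2 n3 q1 q2 q3 q4 q5 q6 : K) (hlam : lam ≠ 0)
    (hN : ∀ y z : K, n0 * y ^ 3 + n1 * y ^ 2 * z + n2 * y * z ^ 2 + n3 * z ^ 3 = 0 →
      y = 0 ∧ z = 0) :
    Par (fun X Y Z W : K[X] => W * (X ^ 2 + C lam * X * W + (C q1 * Y ^ 2 + C q2 * Y * Z +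
      C q3 * Z ^ 2 + C q4 * Y * W + C q5 * Z * W + C q6 * W ^ 2)) +
      (C n0 * Y ^ 3 + C n1 * Y ^ 2 * Z + C n2 * Y * Z ^ 2 + C n3 * Z ^ 3)) := by
  have hn0 : n0 ≠ 0 := by
    intro h
    have := (hN 1 0 (by rw [h]; ring)).1
    exact one_ne_zero this
  have hn3 : n3 ≠ 0 := by
    intro h
    have := (hN 0 1 (by rw [h]; ring)).2
    exact one_ne_zero this
  by_contra hcon
  have key : ∀ y0 z0 : K, (q1 + n0 * y0 + n1 * z0) * lam ^ 2 =
      (q2 * z0 + q4 + (n0 * y0 ^ 2 + n2 * z0 ^ 2)) ^ 2 ∧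
      (q3 + n2 * y0 + n3 * z0) * lam ^ 2 = (q2 * y0 + q5 + (n1 * y0 ^ 2 + n3 * z0 ^ 2)) ^ 2 ∧
      q2 = 0 := by
    intro y0 z0
    obtain ⟨kap, hkap⟩ : ∃ kap, kap = q1 * y0 ^ 2 + q2 * y0 * z0 + q3 * z0 ^ 2 + q4 * y0 +
      q5 * z0 + q6 + (n0 * y0 ^ 3 + n1 * y0 ^ 2 * z0 + n2 * y0 * z0 ^ 2 + n3 * z0 ^ 3) :=
        ⟨_, rfl⟩
    obtain ⟨a, ha⟩ : ∃ a : K, lam * a = q2 * z0 + q4 + (n0 * y0 ^ 2 + n2 * z0 ^ 2) :=
      solve_lin hlam _
    obtain ⟨b, hb⟩ : ∃ b : K, lam * b = q2 * y0 + q5 + (n1 * y0 ^ 2 + n3 * z0 ^ 2) :=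
      solve_lin hlam _
    by_cases hal : (q1 + n0 * y0 + n1 * z0 + a ^ 2 = 0 ∧ q2 = 0 ∧
      q3 + n2 * y0 + n3 * z0 + b ^ 2 = 0)
    · obtain ⟨e1, e2, e3⟩ := hal
      refine ⟨?_, ?_, e2⟩
      · rw [← ha]
        linear_combination lam ^ 2 * e1 - a ^ 2 * lam ^ 2 * h2
      · rw [← hb]
        linear_combination lam ^ 2 * e3 - b ^ 2 * lam ^ 2 * h2
    · exfalso
      apply hcon
      apply par_shift a b 0 y0 z0
      have hp := par_G lam kap 0 0 (q1 + n0 * y0 + n1 * z0 + a ^ 2) q2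
        (q3 + n2 * y0 + n3 * z0 + b ^ 2) n0 n1 n2 n3 hal hn0 (by simpa using hn0)
      refine par_congr hp ?_
      intro X Y Z W
      have c1 := congrArg (C : K → K[X]) ha
      have c2 := congrArg (C : K → K[X]) hb
      have c3 := congrArg (C : K → K[X]) hkap
      have c4 := congrArg (C : K → K[X]) h2
      simp only [map_add, map_mul, map_pow, map_ofNat, map_zero] at c1 c2 c3 c4
      simp only [G, map_add, map_mul, map_pow, map_ofNat, map_sub, map_zero]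
      linear_combination (W ^ 2 * Y) * c1 + (W ^ 2 * Z) * c2 + (-W ^ 3) * c3 +
        (W * X * (C a * Y + C b * Z) + W * C a * C b * Y * Z +
          W ^ 2 * Y * (C q1 * C y0 + C q2 * C z0 + C q4 + C n0 * C y0 ^ 2 * 2 +
            C n1 * C y0 * C z0 + C n2 * C z0 ^ 2 ) +
          W ^ 2 * Z * (C q3 * C z0 + C q2 * C y0 + C q5 + C n3 * C z0 ^ 2 * 2 +
            C n2 * C y0 * C z0 + C n1 * C y0 ^ 2 ) +
          W * (Y ^ 2 * C n0 * C y0 + Y * Z * (C n1 * C y0 + C n2 * C z0) +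
            Z ^ 2 * C n3 * C z0)) * c4
  obtain ⟨a1, a2, a3⟩ := key 0 0
  obtain ⟨b1, b2, -⟩ := key 1 0
  obtain ⟨c1, c2, -⟩ := key 0 1
  subst a3
  have en0 : n0 = lam ^ 2 := by
    have : n0 * (lam ^ 2 - n0) = 0 := by
      linear_combination b1 - a1 + q4 * n0 * h2
    rcases mul_eq_zero.mp this with h | h
    · exact absurd h hn0
    · linear_combination -h
  have en3 : n3 = lam ^ 2 := by
    have : n3 * (lam ^ 2 - n3) = 0 := by
      linear_combination c2 - a2 + q5 * n3 * h2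
    rcases mul_eq_zero.mp this with h | h
    · exact absurd h hn3
    · linear_combination -h
  have e1 : n2 * lam ^ 2 = n1 ^ 2 := by
    linear_combination b2 - a2 + q5 * n1 * h2
  have e2 : n1 * lam ^ 2 = n2 ^ 2 := by
    linear_combination c1 - a1 + q4 * n2 * h2
  by_cases h1 : n1 = 0
  · have h4 : n2 = 0 := by
      rw [h1] at e2
      have : n2 ^ 2 = 0 := by linear_combination -e2
      exact pow_eq_zero_iff two_ne_zero |>.mp this
    have := (hN 1 1 (by rw [h1, h4, en0, en3]; linear_combination lam ^ 2 * h2)).1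
    exact one_ne_zero this
  · have h3 : n1 ^ 3 = lam ^ 6 := by
      have : n1 * (n1 ^ 3 - lam ^ 6) = 0 := by
        linear_combination (-(n2 * lam ^ 2 + n1 ^ 2)) * e1 - lam ^ 4 * e2
      rcases mul_eq_zero.mp this with h | h
      · exact absurd h h1
      · linear_combination h
    have := (hN n1 (lam ^ 2) (by
      rw [en0, en3]
      linear_combination n1 * lam ^ 2 * e1 + 3 * lam ^ 2 * h3 + 2 * lam ^ 8 * h2)).2
    exact (pow_ne_zero 2 hlam) this

end Pool.Agent.Y214.CS
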