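import Mathlib
import Pool.Agent.Y214.CS.TypeI

/-!
Further cases: ramified points, and tangent planes with a pair of conjugate lines.
-/

set_option autoImplicit false

open Polynomial

namespace Pool.Agent.Y214.CS

section Alg

variable {R : Type*} [CommRing R]

theorem ram_identity (l1 l2 l3 q1 q2 q3 q4 q5 q6 n0 n1 n2 n3 x0 y0 z0 a b T : R)
    (hF : x0 ^ 2 + x0 * (l1 * y0 + l2 * z0 + l3) + (q1 * y0 ^ 2 + q2 * y0 * z0 + q3 * z0 ^ 2 +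
      q4 * y0 + q5 * z0 + q6) + (n0 * y0 ^ 3 + n1 * y0 ^ 2 * z0 + n2 * y0 * z0 ^ 2 +
      n3 * z0 ^ 3) = 0)
    (hX : 2 * x0 + (l1 * y0 + l2 * z0 + l3) = 0)
    (ha : a = x0 * l1 + (2 * q1 * y0 + q2 * z0 + q4) +
      (3 * n0 * y0 ^ 2 + 2 * n1 * y0 * z0 + n2 * z0 ^ 2))
    (hb : b = x0 * l2 + (q2 * y0 + 2 * q3 * z0 + q5) +
      (n1 * y0 ^ 2 + 2 * n2 * y0 * z0 + 3 * n3 * z0 ^ 2))
    (l' q' n' qs w x y z : R)
    (hl' : l' = l1 * b - l2 * a)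
    (hq' : q' = q1 * b ^ 2 - q2 * a * b + q3 * a ^ 2 +
      y0 * (3 * n0 * b ^ 2 - 2 * n1 * a * b + n2 * a ^ 2) +
      z0 * (n1 * b ^ 2 - 2 * n2 * a * b + 3 * n3 * a ^ 2))
    (hn' : n' = n0 * b ^ 3 - n1 * b ^ 2 * a + n2 * b * a ^ 2 - n3 * a ^ 3)
    (hqs : qs = 1 + l' * T + q' * T ^ 2)
    (hw : w = - n' * T ^ 3) (hx : x = qs + x0 * w) (hy : y = qs * T * b + y0 * w)
    (hz : z = - qs * T * a + z0 * w) :
    w * (x ^ 2 + x * (l1 * y + l2 * z + l3 * w) + (q1 * y ^ 2 + q2 * y * z + q3 * z ^ 2 +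
      q4 * y * w + q5 * z * w + q6 * w ^ 2)) +
      (n0 * y ^ 3 + n1 * y ^ 2 * z + n2 * y * z ^ 2 + n3 * z ^ 3) = 0 := by
  have step : ∀ U V Wx : R,
      Wx * ((U + x0 * Wx) ^ 2 + (U + x0 * Wx) * (l1 * (V * b + y0 * Wx) + l2 * (-V * a + z0 * Wx) +
        l3 * Wx) + (q1 * (V * b + y0 * Wx) ^ 2 + q2 * (V * b + y0 * Wx) * (-V * a + z0 * Wx) +
        q3 * (-V * a + z0 * Wx) ^ 2 + q4 * (V * b + y0 * Wx) * Wx +
        q5 * (-V * a + z0 * Wx) * Wx + q6 * Wx ^ 2)) +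
      (n0 * (V * b + y0 * Wx) ^ 3 + n1 * (V * b + y0 * Wx) ^ 2 * (-V * a + z0 * Wx) +
        n2 * (V * b + y0 * Wx) * (-V * a + z0 * Wx) ^ 2 + n3 * (-V * a + z0 * Wx) ^ 3) =
      Wx * (U ^ 2 + l' * U * V + q' * V ^ 2) + n' * V ^ 3 := by
    intro U V Wx
    rw [hl', hq', hn']
    linear_combination Wx ^ 3 * hF + U * Wx ^ 2 * hX + (V * Wx ^ 2) * (a * hb - b * ha)
  have e := step qs (qs * T) w
  have e1 : qs * T * b + y0 * w = y := hy.symm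
  have e2 : -(qs * T) * a + z0 * w = z := by rw [hz]; ring
  rw [← hx, e1, e2] at e
  rw [e, hw]
  have : (-n' * T ^ 3) * (qs ^ 2 + l' * qs * (qs * T) + q' * (qs * T) ^ 2) + n' * (qs * T) ^ 3 =
      (-n' * T ^ 3) * (qs ^ 2 * (1 + l' * T + q' * T ^ 2)) + n' * (qs * T) ^ 3 := by ring
  rw [this, ← hqs]
  ring

theorem two_identity (al be ga l1 l2 l3 q1 q2 q3 q4 q5 q6 lam y1 z1 y2 z2 T : R)
    (h1 : (q1 + lam * al) * y1 ^ 2 + (q2 + lam * be) * y1 * z1 + (q3 + lam * ga) * z1 ^ 2 = 0)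
    (h2 : (q1 + lam * al) * y2 ^ 2 + (q2 + lam * be) * y2 * z2 + (q3 + lam * ga) * z2 ^ 2 = 0)
    (s b Y Z W x : R)
    (hs : s = T * ((lam * l1 + q4) * y2 + (lam * l2 + q5) * z2 + (lam * l3 + lam ^ 2 + q6) * T))
    (hb : b = 2 * (q1 + lam * al) * y1 * y2 + (q2 + lam * be) * (y1 * z2 + y2 * z1) +
      2 * (q3 + lam * ga) * z1 * z2 + T * ((lam * l1 + q4) * y1 + (lam * l2 + q5) * z1))
    (hY : Y = s * y1 - b * y2) (hZ : Z = s * z1 - b * z2) (hW : W = - b * T)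
    (hx : x = -(W * (l1 * Y + l2 * Z + l3 * W) + (al * Y ^ 2 + be * Y * Z + ga * Z ^ 2)) -
      lam * W ^ 2) :
    W ^ 2 * (x ^ 2 + x * (l1 * (Y * W) + l2 * (Z * W) + l3 * W ^ 2) + (q1 * (Y * W) ^ 2 +
      q2 * (Y * W) * (Z * W) + q3 * (Z * W) ^ 2 + q4 * (Y * W) * W ^ 2 + q5 * (Z * W) * W ^ 2 +
      q6 * (W ^ 2) ^ 2)) +
      x * (al * (Y * W) ^ 2 + be * (Y * W) * (Z * W) + ga * (Z * W) ^ 2) = 0 := by
  have hS : (q1 + lam * al) * Y ^ 2 + (q2 + lam * be) * Y * Z + (q3 + lam * ga) * Z ^ 2 +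
      W * ((lam * l1 + q4) * Y + (lam * l2 + q5) * Z + (lam * l3 + lam ^ 2 + q6) * W) = 0 := by
    obtain ⟨b1, hb1⟩ : ∃ b1, b1 = q1 + lam * al := ⟨_, rfl⟩
    obtain ⟨b2, hb2⟩ : ∃ b2, b2 = q2 + lam * be := ⟨_, rfl⟩
    obtain ⟨b3, hb3⟩ : ∃ b3, b3 = q3 + lam * ga := ⟨_, rfl⟩
    obtain ⟨c1, hc1⟩ : ∃ c1, c1 = lam * l1 + q4 := ⟨_, rfl⟩
    obtain ⟨c2, hc2⟩ : ∃ c2, c2 = lam * l2 + q5 := ⟨_, rfl⟩
    obtain ⟨c3, hc3⟩ : ∃ c3, c3 = lam * l3 + lam ^ 2 + q6 := ⟨_, rfl⟩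
    rw [← hb1, ← hb2, ← hb3] at h1 h2 hb
    rw [← hc1, ← hc2, ← hc3] at hs
    rw [← hc1, ← hc2] at hb
    rw [← hb1, ← hb2, ← hb3, ← hc1, ← hc2, ← hc3, hY, hZ, hW]
    linear_combination s ^ 2 * h1 + b ^ 2 * h2 + s * b * hb - b ^ 2 * hs
  have e1 : W ^ 2 * (x ^ 2 + x * (l1 * (Y * W) + l2 * (Z * W) + l3 * W ^ 2) + (q1 * (Y * W) ^ 2 +
      q2 * (Y * W) * (Z * W) + q3 * (Z * W) ^ 2 + q4 * (Y * W) * W ^ 2 + q5 * (Z * W) * W ^ 2 +
      q6 * (W ^ 2) ^ 2)) +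
      x * (al * (Y * W) ^ 2 + be * (Y * W) * (Z * W) + ga * (Z * W) ^ 2) =
      W ^ 2 * (x * (x + (W * (l1 * Y + l2 * Z + l3 * W) + (al * Y ^ 2 + be * Y * Z + ga * Z ^ 2))) +
        W ^ 2 * (q1 * Y ^ 2 + q2 * Y * Z + q3 * Z ^ 2 + q4 * Y * W + q5 * Z * W + q6 * W ^ 2)) := by
    ring
  have e2 : x + (W * (l1 * Y + l2 * Z + l3 * W) + (al * Y ^ 2 + be * Y * Z + ga * Z ^ 2)) =
      - lam * W ^ 2 := by rw [hx]; ring
  rw [e1, e2]
  linear_combination W ^ 4 * hS - lam * W ^ 4 * hx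

end Alg

variable {K : Type*} [Field K]

theorem par_ram (l1 l2 l3 q1 q2 q3 q4 q5 q6 n0 n1 n2 n3 x0 y0 z0 : K)
    (hF : x0 ^ 2 + x0 * (l1 * y0 + l2 * z0 + l3) + (q1 * y0 ^ 2 + q2 * y0 * z0 + q3 * z0 ^ 2 +
      q4 * y0 + q5 * z0 + q6) + (n0 * y0 ^ 3 + n1 * y0 ^ 2 * z0 + n2 * y0 * z0 ^ 2 +
      n3 * z0 ^ 3) = 0)
    (hX : 2 * x0 + (l1 * y0 + l2 * z0 + l3) = 0)
    (hab : ¬ (x0 * l1 + (2 * q1 * y0 + q2 * z0 + q4) +
      (3 * n0 * y0 ^ 2 + 2 * n1 * y0 * z0 + n2 * z0 ^ 2) = 0 ∧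
      x0 * l2 + (q2 * y0 + 2 * q3 * z0 + q5) +
      (n1 * y0 ^ 2 + 2 * n2 * y0 * z0 + 3 * n3 * z0 ^ 2) = 0))
    (hN : ∀ y z : K, n0 * y ^ 3 + n1 * y ^ 2 * z + n2 * y * z ^ 2 + n3 * z ^ 3 = 0 →
      y = 0 ∧ z = 0) :
    Par (fun X Y Z W : K[X] => W * (X ^ 2 + X * (C l1 * Y + C l2 * Z + C l3 * W) +
      (C q1 * Y ^ 2 + C q2 * Y * Z + C q3 * Z ^ 2 + C q4 * Y * W + C q5 * Z * W + C q6 * W ^ 2)) +
      (C n0 * Y ^ 3 + C n1 * Y ^ 2 * Z + C n2 * Y * Z ^ 2 + C n3 * Z ^ 3)) := by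
  obtain ⟨a, ha⟩ : ∃ a, a = x0 * l1 + (2 * q1 * y0 + q2 * z0 + q4) +
      (3 * n0 * y0 ^ 2 + 2 * n1 * y0 * z0 + n2 * z0 ^ 2) := ⟨_, rfl⟩
  obtain ⟨b, hb⟩ : ∃ b, b = x0 * l2 + (q2 * y0 + 2 * q3 * z0 + q5) +
      (n1 * y0 ^ 2 + 2 * n2 * y0 * z0 + 3 * n3 * z0 ^ 2) := ⟨_, rfl⟩
  rw [← ha, ← hb] at hab
  obtain ⟨n', hn'⟩ : ∃ n', n' = n0 * b ^ 3 - n1 * b ^ 2 * a + n2 * b * a ^ 2 - n3 * a ^ 3 :=
    ⟨_, rfl⟩
  have hn : n' ≠ 0 := by
    intro h0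
    have := hN b (-a) (by rw [← h0, hn']; ring)
    exact hab ⟨neg_eq_zero.mp this.2, this.1⟩
  have cF := congrArg (C : K → K[X]) hF
  have cX := congrArg (C : K → K[X]) hX
  have ca := congrArg (C : K → K[X]) ha
  have cb := congrArg (C : K → K[X]) hb
  simp only [map_add, map_mul, map_pow, map_ofNat, map_zero] at cF cX ca cb
  have key := ram_identity (C l1) (C l2) (C l3) (C q1) (C q2) (C q3) (C q4) (C q5) (C q6) (C n0)
    (C n1) (C n2) (C n3) (C x0) (C y0) (C z0) (C a) (C b) (X : K[X]) cF cX ca cb _ _ (C n')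
    _ _ _ _ _ rfl rfl (by rw [hn']; simp) rfl rfl rfl rfl rfl
  refine par_of_zero _ _ _ _ key ?_ ?_ ?_ ?_ ?_
  · simp
  · simp
  · simp
  · simp
  · refine Or.inr (Or.inr ?_)
    exact mul_ne_zero (neg_ne_zero.mpr (C_ne_zero.mpr hn)) (pow_ne_zero _ X_ne_zero)

theorem par_two [Finite K] (al be ga l1 l2 l3 q1 q2 q3 q4 q5 q6 : K)
    (hq0 : ∀ y z : K, al * y ^ 2 + be * y * z + ga * z ^ 2 = 0 → y = 0 ∧ z = 0)
    (hnd : ∀ lam : K, ¬ (q1 + lam * al = 0 ∧ q2 + lam * be = 0 ∧ q3 + lam * ga = 0)) :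
    Par (fun X Y Z W : K[X] => W * (X ^ 2 + X * (C l1 * Y + C l2 * Z + C l3 * W) +
      (C q1 * Y ^ 2 + C q2 * Y * Z + C q3 * Z ^ 2 + C q4 * Y * W + C q5 * Z * W + C q6 * W ^ 2)) +
      X * (C al * Y ^ 2 + C be * Y * Z + C ga * Z ^ 2)) := by
  -- the pigeonhole principle
  obtain ⟨lam, y1, z1, y2, z2, hD, h1, h2⟩ : ∃ lam y1 z1 y2 z2 : K, y1 * z2 - y2 * z1 ≠ 0 ∧
      (q1 + lam * al) * y1 ^ 2 + (q2 + lam * be) * y1 * z1 + (q3 + lam * ga) * z1 ^ 2 = 0 ∧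
      (q1 + lam * al) * y2 ^ 2 + (q2 + lam * be) * y2 * z2 + (q3 + lam * ga) * z2 ^ 2 = 0 := by
    let f : Option K → K := fun o => match o with
      | none => -q1 / al
      | some t => -(q1 * t ^ 2 + q2 * t + q3) / (al * t ^ 2 + be * t + ga)
    have hal : al ≠ 0 := by
      intro h
      have := (hq0 1 0 (by rw [h]; ring)).1
      exact one_ne_zero this
    have hqt : ∀ t : K, al * t ^ 2 + be * t + ga ≠ 0 := by
      intro t h
      have := (hq0 t 1 (by rw [← h]; ring)).2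
      exact one_ne_zero this
    have hf : ¬ Function.Injective f := by
      intro hinj
      have := Nat.card_le_card_of_injective f hinj
      rw [Finite.card_option] at this
      omega
    have ht : ∀ t : K, q1 * t ^ 2 + q2 * t + q3 + f (some t) * (al * t ^ 2 + be * t + ga) = 0 := by
      intro t
      have : f (some t) * (al * t ^ 2 + be * t + ga) = -(q1 * t ^ 2 + q2 * t + q3) :=
        div_mul_cancel₀ _ (hqt t)
      rw [this]; ring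
    have hn : q1 + f none * al = 0 := by
      have : f none * al = -q1 := div_mul_cancel₀ _ hal
      rw [this]; ring
    unfold Function.Injective at hf
    push Not at hf
    obtain ⟨o1, o2, ho, hne⟩ := hf
    cases o1 with
    | none =>
      cases o2 with
      | none => exact absurd rfl hne
      | some t =>
        refine ⟨f none, 1, 0, t, 1, by simp, ?_, ?_⟩
        · linear_combination hn
        · rw [ho]; linear_combination ht t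
    | some s =>
      cases o2 with
      | none =>
        refine ⟨f none, 1, 0, s, 1, by simp, ?_, ?_⟩
        · linear_combination hn
        · rw [← ho]; linear_combination ht s
      | some t =>
        have hst : s ≠ t := fun h => hne (by rw [h])
        refine ⟨f (some t), s, 1, t, 1, by simpa using sub_ne_zero.mpr hst, ?_, ?_⟩
        · rw [← ho]; linear_combination ht s
        · linear_combination ht t
  obtain ⟨bp, hbp⟩ : ∃ bp, bp = 2 * (q1 + lam * al) * y1 * y2 +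
    (q2 + lam * be) * (y1 * z2 + y2 * z1) + 2 * (q3 + lam * ga) * z1 * z2 := ⟨_, rfl⟩
  have hb0 : bp ≠ 0 := by
    intro h0
    rw [h0] at hbp
    apply hnd lam
    have hD2 : (y1 * z2 - y2 * z1) ^ 2 ≠ 0 := pow_ne_zero _ hD
    have e1 : (y1 * z2 - y2 * z1) ^ 2 * (q1 + lam * al) = 0 := by
      linear_combination z2 ^ 2 * h1 + z1 ^ 2 * h2 + z1 * z2 * hbp
    have e3 : (y1 * z2 - y2 * z1) ^ 2 * (q3 + lam * ga) = 0 := by
      linear_combination y2 ^ 2 * h1 + y1 ^ 2 * h2 + y1 * y2 * hbp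
    have e2 : (y1 * z2 - y2 * z1) ^ 2 * ((q1 + lam * al) + (q2 + lam * be) + (q3 + lam * ga)) =
        0 := by
      linear_combination (z2 - y2) ^ 2 * h1 + (y1 - z1) ^ 2 * h2 -
        (z2 - y2) * (y1 - z1) * hbp
    have f1 := (mul_eq_zero.mp e1).resolve_left hD2
    have f3 := (mul_eq_zero.mp e3).resolve_left hD2
    have f2 := (mul_eq_zero.mp e2).resolve_left hD2
    refine ⟨f1, ?_, f3⟩
    linear_combination f2 - f1 - f3
  have c1 := congrArg (C : K → K[X]) h1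
  have c2 := congrArg (C : K → K[X]) h2
  have c3 := congrArg (C : K → K[X]) hbp
  simp only [map_add, map_mul, map_pow, map_ofNat, map_zero] at c1 c2 c3
  have key := two_identity (C al) (C be) (C ga) (C l1) (C l2) (C l3) (C q1) (C q2) (C q3) (C q4)
    (C q5) (C q6) (C lam) (C y1) (C z1) (C y2) (C z2) (X : K[X]) c1 c2 _ _ _ _ _ _ rfl rfl rfl
    rfl rfl rfl
  rw [← c3] at key
  refine par_of_zero _ _ _ _ key ?_ ?_ ?_ ?_ ?_
  · simp only [eval_add, eval_sub, eval_mul, eval_pow, eval_C, eval_X, eval_neg]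
    intro h0
    have h1 : bp ^ 2 * (al * y2 ^ 2 + be * y2 * z2 + ga * z2 ^ 2) = 0 := by
      linear_combination -h0
    rcases mul_eq_zero.mp h1 with h2 | h2
    · exact (pow_ne_zero _ hb0) h2
    · obtain ⟨e1, e2⟩ := hq0 _ _ h2
      apply hD
      rw [e1, e2]; ring
  · simp
  · simp
  · simp
  · refine Or.inr (Or.inr ?_)
    refine pow_ne_zero _ (mul_ne_zero (neg_ne_zero.mpr ?_) X_ne_zero)
    intro h0
    have := congrArg (Polynomial.eval 0) h0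
    simp only [eval_add, eval_mul, eval_C, eval_X, eval_zero] at this
    apply hb0
    linear_combination this

end Pool.Agent.Y214.CS
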