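import Mathlib
import Pool.Agent.Y214.CS.TypeII

/-!
Every point of a smooth cubic surface over a finite field lies on a rational curve: the normal form.
-/

set_option autoImplicit false

open Polynomial

namespace Pool.Agent.Y214.CS

section Alg

variable {R : Type*} [CommRing R]

def Fn (al be ga l1 l2 l3 n0 n1 n2 n3 q1 q2 q3 q4 q5 q6 X Y Z W : R) : R :=
  W * X ^ 2 + X * (al * Y ^ 2 + be * Y * Z + ga * Z ^ 2 + W * (l1 * Y + l2 * Z + l3 * W)) +
    (n0 * Y ^ 3 + n1 * Y ^ 2 * Z + n2 * Y * Z ^ 2 + n3 * Z ^ 3) +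
    W * (q1 * Y ^ 2 + q2 * Y * Z + q3 * Z ^ 2 + q4 * Y * W + q5 * Z * W + q6 * W ^ 2)

def FX (al be ga l1 l2 l3 X Y Z W : R) : R :=
  2 * W * X + (al * Y ^ 2 + be * Y * Z + ga * Z ^ 2 + W * (l1 * Y + l2 * Z + l3 * W))

def FY (al be l1 n0 n1 n2 q1 q2 q4 X Y Z W : R) : R :=
  X * (2 * al * Y + be * Z + W * l1) + (3 * n0 * Y ^ 2 + 2 * n1 * Y * Z + n2 * Z ^ 2) +
    W * (2 * q1 * Y + q2 * Z + q4 * W)

def FZ (be ga l2 n1 n2 n3 q2 q3 q5 X Y Z W : R) : R :=
  X * (be * Y + 2 * ga * Z + W * l2) + (n1 * Y ^ 2 + 2 * n2 * Y * Z + 3 * n3 * Z ^ 2) +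
    W * (q2 * Y + 2 * q3 * Z + q5 * W)

def FW (l1 l2 l3 q1 q2 q3 q4 q5 q6 X Y Z W : R) : R :=
  X ^ 2 + X * ((l1 * Y + l2 * Z + l3 * W) + W * l3) +
    (q1 * Y ^ 2 + q2 * Y * Z + q3 * Z ^ 2 + q4 * Y * W + q5 * Z * W + q6 * W ^ 2) +
    W * (q4 * Y + q5 * Z + 2 * q6 * W)

end Alg

variable {K : Type*} [Field K]

theorem exists_cube [Finite K] (h3 : (3 : K) = 0) (a : K) : ∃ b : K, b ^ 3 = a := by
  have : CharP K 3 := ringChar.of_eq
    (CharP.ringChar_of_prime_eq_zero Nat.prime_three (by exact_mod_cast h3))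
  have : Fact (Nat.Prime 3) := ⟨Nat.prime_three⟩
  have hinj : Function.Injective (frobenius K 3) := (frobenius K 3).injective
  obtain ⟨b, hb⟩ := (Finite.injective_iff_surjective.mp hinj) a
  exact ⟨b, by simpa [frobenius_def] using hb⟩

theorem exists_sq [Finite K] (h2 : (2 : K) = 0) (a : K) : ∃ b : K, b ^ 2 = a := by
  have : CharP K 2 := ringChar.of_eq
    (CharP.ringChar_of_prime_eq_zero Nat.prime_two (by exact_mod_cast h2))
  have : Fact (Nat.Prime 2) := ⟨Nat.prime_two⟩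
  have hinj : Function.Injective (frobenius K 2) := (frobenius K 2).injective
  obtain ⟨b, hb⟩ := (Finite.injective_iff_surjective.mp hinj) a
  exact ⟨b, by simpa [frobenius_def] using hb⟩

/-- tangent plane section consisting of three conjugate concurrent lines -/
theorem par_one [Finite K] (l1 l2 l3 q1 q2 q3 q4 q5 q6 n0 n1 n2 n3 : K)
    (hN : ∀ y z : K, n0 * y ^ 3 + n1 * y ^ 2 * z + n2 * y * z ^ 2 + n3 * z ^ 3 = 0 →
      y = 0 ∧ z = 0)
    (hsm : ∀ x0 y0 z0 : K, x0 ^ 2 + x0 * (l1 * y0 + l2 * z0 + l3) + (q1 * y0 ^ 2 +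
      q2 * y0 * z0 + q3 * z0 ^ 2 + q4 * y0 + q5 * z0 + q6) + (n0 * y0 ^ 3 + n1 * y0 ^ 2 * z0 +
      n2 * y0 * z0 ^ 2 + n3 * z0 ^ 3) = 0 → 2 * x0 + (l1 * y0 + l2 * z0 + l3) = 0 →
      ¬ (x0 * l1 + (2 * q1 * y0 + q2 * z0 + q4) +
      (3 * n0 * y0 ^ 2 + 2 * n1 * y0 * z0 + n2 * z0 ^ 2) = 0 ∧
      x0 * l2 + (q2 * y0 + 2 * q3 * z0 + q5) +
      (n1 * y0 ^ 2 + 2 * n2 * y0 * z0 + 3 * n3 * z0 ^ 2) = 0)) :
    Par (fun X Y Z W : K[X] => W * (X ^ 2 + X * (C l1 * Y + C l2 * Z + C l3 * W) +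
      (C q1 * Y ^ 2 + C q2 * Y * Z + C q3 * Z ^ 2 + C q4 * Y * W + C q5 * Z * W + C q6 * W ^ 2)) +
      (C n0 * Y ^ 3 + C n1 * Y ^ 2 * Z + C n2 * Y * Z ^ 2 + C n3 * Z ^ 3)) := by
  by_cases hram : ∃ x0 y0 z0 : K, x0 ^ 2 + x0 * (l1 * y0 + l2 * z0 + l3) + (q1 * y0 ^ 2 +
      q2 * y0 * z0 + q3 * z0 ^ 2 + q4 * y0 + q5 * z0 + q6) + (n0 * y0 ^ 3 + n1 * y0 ^ 2 * z0 +
      n2 * y0 * z0 ^ 2 + n3 * z0 ^ 3) = 0 ∧ 2 * x0 + (l1 * y0 + l2 * z0 + l3) = 0
  · obtain ⟨x0, y0, z0, h1, h2⟩ := hram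
    exact par_ram l1 l2 l3 q1 q2 q3 q4 q5 q6 n0 n1 n2 n3 x0 y0 z0 h1 h2 (hsm x0 y0 z0 h1 h2) hN
  · by_cases h2 : (2 : K) = 0
    · -- characteristic two
      have hL : ∀ y z : K, l1 * y + l2 * z + l3 ≠ 0 := by
        intro y z h
        obtain ⟨x0, hx0⟩ := exists_sq h2 ((q1 * y ^ 2 +
          q2 * y * z + q3 * z ^ 2 + q4 * y + q5 * z + q6) + (n0 * y ^ 3 + n1 * y ^ 2 * z +
          n2 * y * z ^ 2 + n3 * z ^ 3))
        apply hram
        refine ⟨x0, y, z, ?_, ?_⟩
        · rw [h]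
          linear_combination -hx0 + x0 ^ 2 * h2
        · rw [h, h2]; ring
      have hl3 : l3 ≠ 0 := by
        have := hL 0 0
        simpa using this
      have hl1 : l1 = 0 := by
        by_contra h
        apply hL (-l3 / l1) 0
        field_simp
        ring
      have hl2 : l2 = 0 := by
        by_contra h
        apply hL 0 (-l3 / l2)
        field_simp
        ring
      have hp := par_even h2 l3 n0 n1 n2 n3 q1 q2 q3 q4 q5 q6 hl3 hN
      refine par_congr hp ?_
      intro X Y Z W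
      rw [hl1, hl2]
      simp only [map_zero]
      ring
    · apply par_shift (-l1 / 2) (-l2 / 2) (-l3 / 2) 0 0
      have hp := par_odd h2 n0 n1 n2 n3 (q1 - l1 ^ 2 / 4) (q2 - l1 * l2 / 2) (q3 - l2 ^ 2 / 4)
        (q4 - l1 * l3 / 2) (q5 - l2 * l3 / 2) (q6 - l3 ^ 2 / 4) hN
        (fun a h3 => exists_cube h3 a) ?_
      · refine par_congr hp ?_
        intro X Y Z W
        obtain ⟨u, hu⟩ := solve_lin h2 l1
        obtain ⟨v, hv⟩ := solve_lin h2 l2
        obtain ⟨w, hw⟩ := solve_lin h2 l3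
        have h4 : (4 : K) ≠ 0 := by
          have : (4 : K) = 2 * 2 := by norm_num
          rw [this]; exact mul_ne_zero h2 h2
        have e1 : -l1 / 2 = -u := by rw [← hu]; field_simp
        have e2 : -l2 / 2 = -v := by rw [← hv]; field_simp
        have e3 : -l3 / 2 = -w := by rw [← hw]; field_simp
        have e4 : l1 ^ 2 / 4 = u ^ 2 := by rw [← hu]; field_simp; ring
        have e5 : l1 * l2 / 2 = 2 * u * v := by rw [← hu, ← hv]; field_simp
        have e6 : l2 ^ 2 / 4 = v ^ 2 := by rw [← hv]; field_simp; ring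
        have e7 : l1 * l3 / 2 = 2 * u * w := by rw [← hu, ← hw]; field_simp
        have e8 : l2 * l3 / 2 = 2 * v * w := by rw [← hv, ← hw]; field_simp
        have e9 : l3 ^ 2 / 4 = w ^ 2 := by rw [← hw]; field_simp; ring
        rw [e1, e2, e3, e4, e5, e6, e7, e8, e9, ← hu, ← hv, ← hw]
        simp only [map_neg, map_sub, map_mul, map_pow, map_ofNat, map_zero]
        ring
      · intro y z h
        apply hram
        refine ⟨-(l1 * y + l2 * z + l3) / 2, y, z, ?_, ?_⟩
        · rw [← h]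
          have h4 : (4 : K) ≠ 0 := by
            have : (4 : K) = 2 * 2 := by norm_num
            rw [this]; exact mul_ne_zero h2 h2
          field_simp
          ring
        · field_simp
          ring

/-- the normal form of a cubic surface, smooth at `(1, 0, 0, 0)` -/
theorem par_normal [Finite K] (al be ga l1 l2 l3 n0 n1 n2 n3 q1 q2 q3 q4 q5 q6 : K)
    (hsm : ∀ (ι : K →+* AlgebraicClosure K), ι = algebraMap K (AlgebraicClosure K) →
      ∀ X Y Z W : AlgebraicClosure K,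
      Fn (ι al) (ι be) (ι ga) (ι l1) (ι l2) (ι l3) (ι n0) (ι n1) (ι n2) (ι n3) (ι q1) (ι q2)
        (ι q3) (ι q4) (ι q5) (ι q6) X Y Z W = 0 →
      FX (ι al) (ι be) (ι ga) (ι l1) (ι l2) (ι l3) X Y Z W = 0 →
      FY (ι al) (ι be) (ι l1) (ι n0) (ι n1) (ι n2) (ι q1) (ι q2) (ι q4) X Y Z W = 0 →
      FZ (ι be) (ι ga) (ι l2) (ι n1) (ι n2) (ι n3) (ι q2) (ι q3) (ι q5) X Y Z W = 0 →
      FW (ι l1) (ι l2) (ι l3) (ι q1) (ι q2) (ι q3) (ι q4) (ι q5) (ι q6) X Y Z W = 0 →
      Z = 0 ∧ W = 0) :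
    Par (fun X Y Z W : K[X] => Fn (C al) (C be) (C ga) (C l1) (C l2) (C l3) (C n0) (C n1) (C n2)
      (C n3) (C q1) (C q2) (C q3) (C q4) (C q5) (C q6) X Y Z W) := by
  obtain ⟨ι, hι⟩ : ∃ ι : K →+* AlgebraicClosure K, ι = algebraMap K (AlgebraicClosure K) :=
    ⟨_, rfl⟩
  have hsm := hsm ι hι
  -- a line through the point
  by_cases hB : ∃ y z : K, ¬ (y = 0 ∧ z = 0) ∧ al * y ^ 2 + be * y * z + ga * z ^ 2 = 0 ∧
      n0 * y ^ 3 + n1 * y ^ 2 * z + n2 * y * z ^ 2 + n3 * z ^ 3 = 0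
  · obtain ⟨y, z, hyz, h1, h2⟩ := hB
    have c1 := congrArg (C : K → K[X]) h1
    have c2 := congrArg (C : K → K[X]) h2
    simp only [map_add, map_mul, map_pow, map_zero] at c1 c2
    refine par_of_zero 1 (C y * X) (C z * X) 0 ?_ (by simp) (by simp) (by simp) (by simp) ?_
    · simp only [Fn]
      linear_combination X ^ 2 * c1 + X ^ 3 * c2
    · by_cases hy : y = 0
      · have hz : z ≠ 0 := fun h => hyz ⟨hy, h⟩
        exact Or.inr (Or.inl (mul_ne_zero (C_ne_zero.mpr hz) X_ne_zero))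
      · exact Or.inl (mul_ne_zero (C_ne_zero.mpr hy) X_ne_zero)
  by_cases h0 : al = 0 ∧ be = 0 ∧ ga = 0
  · obtain ⟨hal, hbe, hga⟩ := h0
    subst hal hbe hga
    have hN : ∀ y z : K, n0 * y ^ 3 + n1 * y ^ 2 * z + n2 * y * z ^ 2 + n3 * z ^ 3 = 0 →
        y = 0 ∧ z = 0 := by
      intro y z h
      by_contra hyz
      exact hB ⟨y, z, hyz, by ring, h⟩
    have hp := par_one l1 l2 l3 q1 q2 q3 q4 q5 q6 n0 n1 n2 n3 hN ?_
    · refine par_congr hp ?_
      intro X Y Z W
      simp only [Fn, map_zero]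
      ring
    · rintro x0 y0 z0 e1 e2 ⟨e3, e4⟩
      have c1 := congrArg ι e1
      have c2 := congrArg ι e2
      have c3 := congrArg ι e3
      have c4 := congrArg ι e4
      simp only [map_add, map_mul, map_pow, map_ofNat, map_zero] at c1 c2 c3 c4
      have := (hsm (ι x0) (ι y0) (ι z0) 1 (by simp only [Fn, map_zero]; linear_combination c1)
        (by simp only [FX, map_zero]; linear_combination c2)
        (by simp only [FY, map_zero]; linear_combination c3)
        (by simp only [FZ, map_zero]; linear_combination c4)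
        (by simp only [FW]; linear_combination 3 * c1 - ι x0 * c2 - ι y0 * c3 - ι z0 * c4)).2
      exact one_ne_zero this
  by_cases hA : ∃ y z : AlgebraicClosure K, ¬ (y = 0 ∧ z = 0) ∧
      ι al * y ^ 2 + ι be * y * z + ι ga * z ^ 2 = 0 ∧
      ι n0 * y ^ 3 + ι n1 * y ^ 2 * z + ι n2 * y * z ^ 2 + ι n3 * z ^ 3 ≠ 0
  · obtain ⟨y, z, hyz, h1, h2⟩ := hA
    by_cases hz : z = 0
    · have hy : y ≠ 0 := fun h => hyz ⟨h, hz⟩
      subst hz
      have hal : al = 0 := by
        have : ι al * y ^ 2 = 0 := by linear_combination h1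
        have := (mul_eq_zero.mp this).resolve_right (pow_ne_zero _ hy)
        exact (map_eq_zero ι).mp this
      have hn0 : n0 ≠ 0 := by
        intro h
        apply h2
        rw [h]
        simp
      refine par_of_zero (-(C n0 + C n1 * X + C n2 * X ^ 2 + C n3 * X ^ 3))
        (C al + C be * X + C ga * X ^ 2) (X * (C al + C be * X + C ga * X ^ 2)) 0 ?_ ?_ ?_ ?_ ?_ ?_
      · simp only [Fn]
        ring
      · simpa using hn0
      · simpa using hal
      · simp
      · simp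
      · left
        intro hp
        apply h0
        refine ⟨hal, ?_, ?_⟩
        · have := congrArg (fun p => p.coeff 1) hp
          simpa [coeff_C, coeff_X] using this
        · have := congrArg (fun p => p.coeff 2) hp
          simpa [coeff_C, coeff_X] using this
    · refine ⟨-(C n0 * X ^ 3 + C n1 * X ^ 2 + C n2 * X + C n3),
        X * (C al * X ^ 2 + C be * X + C ga), (C al * X ^ 2 + C be * X + C ga), 0, y / z,
        ?_, ?_, ?_, ?_, ?_, ?_⟩
      · simp only [Fn]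
        ring
      · simp only [map_neg, map_add, map_mul, map_pow, aeval_C, aeval_X, ← hι]
        intro h
        apply h2
        have e : y / z * z = y := div_mul_cancel₀ _ hz
        obtain ⟨r, hr⟩ : ∃ r, r = y / z := ⟨_, rfl⟩
        rw [← hr] at e h
        rw [← e]
        linear_combination -z ^ 3 * h
      · simp only [map_add, map_mul, map_pow, aeval_C, aeval_X, ← hι]
        have e : y / z * z = y := div_mul_cancel₀ _ hz
        obtain ⟨r, hr⟩ : ∃ r, r = y / z := ⟨_, rfl⟩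
        rw [← hr] at e ⊢
        rw [← e] at h1
        have : z ^ 2 * (ι al * r ^ 2 + ι be * r + ι ga) = 0 := by linear_combination h1
        rw [(mul_eq_zero.mp this).resolve_left (pow_ne_zero _ hz), mul_zero]
      · simp only [map_add, map_mul, map_pow, aeval_C, aeval_X, ← hι]
        have e : y / z * z = y := div_mul_cancel₀ _ hz
        obtain ⟨r, hr⟩ : ∃ r, r = y / z := ⟨_, rfl⟩
        rw [← hr] at e ⊢
        rw [← e] at h1
        have : z ^ 2 * (ι al * r ^ 2 + ι be * r + ι ga) = 0 := by linear_combination h1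
        exact (mul_eq_zero.mp this).resolve_left (pow_ne_zero _ hz)
      · simp
      · right; left
        intro hp
        apply h0
        refine ⟨?_, ?_, ?_⟩
        · have := congrArg (fun p => p.coeff 2) hp
          simpa [coeff_C, coeff_X] using this
        · have := congrArg (fun p => p.coeff 1) hp
          simpa [coeff_C, coeff_X] using this
        · have := congrArg (fun p => p.coeff 0) hp
          simpa [coeff_C, coeff_X] using this
  -- type two
  push Not at hA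
  have hq0 : ∀ y z : K, al * y ^ 2 + be * y * z + ga * z ^ 2 = 0 → y = 0 ∧ z = 0 := by
    intro y z h
    by_contra hyz
    apply hB
    refine ⟨y, z, hyz, h, ?_⟩
    have h1 := hA (ι y) (ι z) (by simpa using hyz) (by
      have := congrArg ι h
      simpa using this)
    have : ι (n0 * y ^ 3 + n1 * y ^ 2 * z + n2 * y * z ^ 2 + n3 * z ^ 3) = 0 := by
      simpa using h1
    exact (map_eq_zero ι).mp this
  have hal : al ≠ 0 := by
    intro h
    have := (hq0 1 0 (by rw [h]; ring)).1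
    exact one_ne_zero this
  obtain ⟨rho, hrho⟩ : ∃ rho : AlgebraicClosure K, ι al * rho ^ 2 + ι be * rho + ι ga = 0 := by
    obtain ⟨r, hr⟩ := IsAlgClosed.exists_root (C (ι al) * X ^ 2 + C (ι be) * X + C (ι ga)) (by
      rw [degree_quadratic ((map_ne_zero ι).mpr hal)]; decide)
    refine ⟨r, ?_⟩
    simpa [IsRoot.def] using hr
  obtain ⟨m1, hm1⟩ := solve_lin hal n0
  obtain ⟨m2, hm2⟩ := solve_lin hal (n1 - be * m1)
  have hc0 := hA rho 1 (by simp) (by linear_combination hrho)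
  have hr : ι (n2 - ga * m1 - be * m2) * rho + ι (n3 - ga * m2) = 0 := by
    have c1 := congrArg ι hm1
    have c2 := congrArg ι hm2
    simp only [map_mul, map_sub] at c1 c2 ⊢
    linear_combination hc0 - (ι m1 * rho + ι m2) * hrho + rho ^ 3 * c1 + rho ^ 2 * c2
  have hr1 : n2 - ga * m1 - be * m2 = 0 := by
    by_contra h
    have e : rho = ι (-(n3 - ga * m2) / (n2 - ga * m1 - be * m2)) := by
      have hne : ι (n2 - ga * m1 - be * m2) ≠ 0 := (map_ne_zero ι).mpr h
      rw [map_div₀, map_neg, eq_div_iff hne]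
      linear_combination hr
    rw [e] at hrho
    have e2 : al * (-(n3 - ga * m2) / (n2 - ga * m1 - be * m2)) ^ 2 +
        be * (-(n3 - ga * m2) / (n2 - ga * m1 - be * m2)) * 1 + ga * 1 ^ 2 = 0 := by
      apply (map_eq_zero ι).mp
      rw [← hrho]
      simp only [map_add, map_mul, map_pow, map_one]
      ring
    exact one_ne_zero (hq0 _ _ e2).2
  have hr0 : n3 - ga * m2 = 0 := by
    rw [hr1, map_zero, zero_mul, zero_add] at hr
    exact (map_eq_zero ι).mp hr
  apply par_shift (-m1) (-m2) 0 0 0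
  have hp := par_two al be ga (l1 - 2 * m1) (l2 - 2 * m2) l3 (q1 + m1 ^ 2 - m1 * l1)
    (q2 + 2 * m1 * m2 - m1 * l2 - m2 * l1) (q3 + m2 ^ 2 - m2 * l2) (q4 - m1 * l3) (q5 - m2 * l3)
    q6 hq0 ?_
  · refine par_congr hp ?_
    intro X Y Z W
    have c1 := congrArg (C : K → K[X]) hm1
    have c2 := congrArg (C : K → K[X]) hm2
    have c3 := congrArg (C : K → K[X]) hr1
    have c4 := congrArg (C : K → K[X]) hr0
    simp only [Fn, map_add, map_sub, map_mul, map_pow, map_ofNat, map_neg, map_zero] at c1 c2 c3 c4 ⊢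
    linear_combination (-Y ^ 3) * c1 + (-Y ^ 2 * Z) * c2 + (Y * Z ^ 2) * c3 + Z ^ 3 * c4
  · rintro lam ⟨e1, e2, e3⟩
    have c1 := congrArg ι hm1
    have c2 := congrArg ι hm2
    have c3 := congrArg ι hr1
    have c4 := congrArg ι hr0
    have d1 := congrArg ι e1
    have d2 := congrArg ι e2
    have d3 := congrArg ι e3
    simp only [map_add, map_sub, map_mul, map_pow, map_ofNat, map_zero] at c1 c2 c3 c4 d1 d2 d3
    have := (hsm (-(ι m1 * rho + ι m2)) rho 1 0 ?_ ?_ ?_ ?_ ?_).1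
    · exact one_ne_zero this
    · simp only [Fn]
      linear_combination -(ι m1 * rho + ι m2) * hrho + hc0
    · simp only [FX]
      linear_combination hrho
    · simp only [FY]
      linear_combination ι m1 * hrho - 3 * rho ^ 2 * c1 - 2 * rho * c2 + c3
    · simp only [FZ]
      linear_combination ι m2 * hrho - rho ^ 2 * c2 + 2 * rho * c3 + 3 * c4
    · simp only [FW]
      linear_combination rho ^ 2 * d1 + rho * d2 + d3 - ι lam * hrho

end Pool.Agent.Y214.CS
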