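import Mathlib
import Pool.Agent.Y214.CS.Normal
import Pool.Agent.Y214.CS.Curve

/-!
Every point of a smooth cubic surface over a finite field lies on a rational curve.
-/

set_option autoImplicit false

namespace Pool.Agent.Y214.CS

open MvPolynomial

variable {K : Type*} [Field K]

theorem pderiv_aeval (L : Fin 4 → MvPolynomial (Fin 4) K) (F : MvPolynomial (Fin 4) K)
    (j : Fin 4) : pderiv j (aeval L F) = ∑ i, aeval L (pderiv i F) * pderiv j (L i) := by
  induction F using MvPolynomial.induction_on with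
  | C a =>
    simp [MvPolynomial.algebraMap_eq]
  | add p q hp hq =>
    simp only [map_add, hp, hq, add_mul, Finset.sum_add_distrib]
  | mul_X p i hp =>
    rw [map_mul, aeval_X, Derivation.leibniz, hp]
    have : ∀ k, aeval L (pderiv k (p * X i)) * pderiv j (L k) =
        (L i) * (aeval L (pderiv k p) * pderiv j (L k)) +
        (if k = i then aeval L p * pderiv j (L k) else 0) := by
      intro k
      rw [Derivation.leibniz, pderiv_X]
      by_cases hk : k = i
      · subst hk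
        simp
        ring
      · rw [Pi.single_eq_of_ne (Ne.symm hk)]
        simp [hk]
        ring
    simp only [this, Finset.sum_add_distrib, Finset.sum_ite_eq', Finset.mem_univ, if_true,
      smul_eq_mul, ← Finset.mul_sum]
    ring

/-- a cubic form given by its twenty coefficients -/
theorem cubic_rep20 (F : MvPolynomial (Fin 4) K) (hF : F.IsHomogeneous 3) :
    ∃ a b c d al be ga l1 l2 l3 n0 n1 n2 n3 q1 q2 q3 q4 q5 q6 : K,
      F = C a * X 0 ^ 3 + C b * X 0 ^ 2 * X 1 + C c * X 0 ^ 2 * X 2 +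
        (C d - 1) * X 0 ^ 2 * X 3 +
        Fn (C al) (C be) (C ga) (C l1) (C l2) (C l3) (C n0) (C n1) (C n2) (C n3) (C q1) (C q2)
          (C q3) (C q4) (C q5) (C q6) (X 0) (X 1) (X 2) (X 3) := by
  obtain ⟨c, hc⟩ := cubic_rep F hF
  refine ⟨c 0 0 0, c 0 0 1 + c 0 1 0 + c 1 0 0, c 0 0 2 + c 0 2 0 + c 2 0 0,
    c 0 0 3 + c 0 3 0 + c 3 0 0,
    c 0 1 1 + c 1 0 1 + c 1 1 0,
    c 0 1 2 + c 0 2 1 + c 1 0 2 + c 1 2 0 + c 2 0 1 + c 2 1 0,
    c 0 2 2 + c 2 0 2 + c 2 2 0,
    c 0 1 3 + c 0 3 1 + c 1 0 3 + c 1 3 0 + c 3 0 1 + c 3 1 0,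
    c 0 2 3 + c 0 3 2 + c 2 0 3 + c 2 3 0 + c 3 0 2 + c 3 2 0,
    c 0 3 3 + c 3 0 3 + c 3 3 0,
    c 1 1 1, c 1 1 2 + c 1 2 1 + c 2 1 1, c 1 2 2 + c 2 1 2 + c 2 2 1, c 2 2 2,
    c 1 1 3 + c 1 3 1 + c 3 1 1,
    c 1 2 3 + c 1 3 2 + c 2 1 3 + c 2 3 1 + c 3 1 2 + c 3 2 1,
    c 2 2 3 + c 2 3 2 + c 3 2 2,
    c 1 3 3 + c 3 1 3 + c 3 3 1,
    c 2 3 3 + c 3 2 3 + c 3 3 2,
    c 3 3 3, ?_⟩
  rw [hc]
  simp only [Fin.sum_univ_four, Fn, map_add]
  ring

theorem pd0 (al be ga l1 l2 l3 n0 n1 n2 n3 q1 q2 q3 q4 q5 q6 : K) :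
    pderiv (0 : Fin 4) (Fn (C al) (C be) (C ga) (C l1) (C l2) (C l3) (C n0) (C n1) (C n2) (C n3)
      (C q1) (C q2) (C q3) (C q4) (C q5) (C q6) (X 0) (X 1) (X 2) (X 3)) =
    FX (C al) (C be) (C ga) (C l1) (C l2) (C l3) (X 0) (X 1) (X 2) (X 3) := by
  have h1 : pderiv (0 : Fin 4) (X 1 : MvPolynomial (Fin 4) K) = 0 :=
    pderiv_X_of_ne (by decide)
  have h2 : pderiv (0 : Fin 4) (X 2 : MvPolynomial (Fin 4) K) = 0 :=
    pderiv_X_of_ne (by decide)
  have h3 : pderiv (0 : Fin 4) (X 3 : MvPolynomial (Fin 4) K) = 0 :=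
    pderiv_X_of_ne (by decide)
  simp only [Fn, FX, map_add, pderiv_mul, pderiv_pow, pderiv_C, pderiv_X_self, h1, h2, h3]
  ring

theorem pd1 (al be ga l1 l2 l3 n0 n1 n2 n3 q1 q2 q3 q4 q5 q6 : K) :
    pderiv (1 : Fin 4) (Fn (C al) (C be) (C ga) (C l1) (C l2) (C l3) (C n0) (C n1) (C n2) (C n3)
      (C q1) (C q2) (C q3) (C q4) (C q5) (C q6) (X 0) (X 1) (X 2) (X 3)) =
    FY (C al) (C be) (C l1) (C n0) (C n1) (C n2) (C q1) (C q2) (C q4) (X 0) (X 1) (X 2) (X 3) := by
  have h1 : pderiv (1 : Fin 4) (X 0 : MvPolynomial (Fin 4) K) = 0 :=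
    pderiv_X_of_ne (by decide)
  have h2 : pderiv (1 : Fin 4) (X 2 : MvPolynomial (Fin 4) K) = 0 :=
    pderiv_X_of_ne (by decide)
  have h3 : pderiv (1 : Fin 4) (X 3 : MvPolynomial (Fin 4) K) = 0 :=
    pderiv_X_of_ne (by decide)
  simp only [Fn, FY, map_add, pderiv_mul, pderiv_pow, pderiv_C, pderiv_X_self, h1, h2, h3]
  ring

theorem pd2 (al be ga l1 l2 l3 n0 n1 n2 n3 q1 q2 q3 q4 q5 q6 : K) :
    pderiv (2 : Fin 4) (Fn (C al) (C be) (C ga) (C l1) (C l2) (C l3) (C n0) (C n1) (C n2) (C n3)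
      (C q1) (C q2) (C q3) (C q4) (C q5) (C q6) (X 0) (X 1) (X 2) (X 3)) =
    FZ (C be) (C ga) (C l2) (C n1) (C n2) (C n3) (C q2) (C q3) (C q5) (X 0) (X 1) (X 2) (X 3) := by
  have h1 : pderiv (2 : Fin 4) (X 0 : MvPolynomial (Fin 4) K) = 0 :=
    pderiv_X_of_ne (by decide)
  have h2 : pderiv (2 : Fin 4) (X 1 : MvPolynomial (Fin 4) K) = 0 :=
    pderiv_X_of_ne (by decide)
  have h3 : pderiv (2 : Fin 4) (X 3 : MvPolynomial (Fin 4) K) = 0 :=
    pderiv_X_of_ne (by decide)
  simp only [Fn, FZ, map_add, pderiv_mul, pderiv_pow, pderiv_C, pderiv_X_self, h1, h2, h3]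
  ring

theorem pd3 (al be ga l1 l2 l3 n0 n1 n2 n3 q1 q2 q3 q4 q5 q6 : K) :
    pderiv (3 : Fin 4) (Fn (C al) (C be) (C ga) (C l1) (C l2) (C l3) (C n0) (C n1) (C n2) (C n3)
      (C q1) (C q2) (C q3) (C q4) (C q5) (C q6) (X 0) (X 1) (X 2) (X 3)) =
    FW (C l1) (C l2) (C l3) (C q1) (C q2) (C q3) (C q4) (C q5) (C q6) (X 0) (X 1) (X 2)
      (X 3) := by
  have h1 : pderiv (3 : Fin 4) (X 0 : MvPolynomial (Fin 4) K) = 0 :=
    pderiv_X_of_ne (by decide)
  have h2 : pderiv (3 : Fin 4) (X 1 : MvPolynomial (Fin 4) K) = 0 :=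
    pderiv_X_of_ne (by decide)
  have h3 : pderiv (3 : Fin 4) (X 2 : MvPolynomial (Fin 4) K) = 0 :=
    pderiv_X_of_ne (by decide)
  simp only [Fn, FW, map_add, pderiv_mul, pderiv_pow, pderiv_C, pderiv_X_self, h1, h2, h3]
  ring

/-- the coordinate change -/
def lv {R : Type*} [CommRing R] (f : K →+* R) (x : Fin 4 → K) (σ : Equiv.Perm (Fin 4))
    (a b c : K) (V : Fin 4 → R) (i : Fin 4) : R :=
  f (x i) * V 0 + (![0, V 1, V 2, -f a * V 1 - f b * V 2 + f c * V 3] : Fin 4 → R) (σ.symm i)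

theorem lv_map {R S : Type*} [CommRing R] [CommRing S] (f : K →+* R) (h : R →+* S)
    (x : Fin 4 → K) (σ : Equiv.Perm (Fin 4)) (a b c : K) (V : Fin 4 → R) (i : Fin 4) :
    h (lv f x σ a b c V i) = lv (h.comp f) x σ a b c (fun j => h (V j)) i := by
  unfold lv
  rw [map_add, map_mul]
  congr 1
  generalize σ.symm i = k
  fin_cases k
  · simp
  · simp
  · simp
  · simp

theorem lv_σ {R : Type*} [CommRing R] (f : K →+* R) (x : Fin 4 → K) (σ : Equiv.Perm (Fin 4))
    (a b c : K) (V : Fin 4 → R) (k : Fin 4) :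
    lv f x σ a b c V (σ k) = f (x (σ k)) * V 0 +
      (![0, V 1, V 2, -f a * V 1 - f b * V 2 + f c * V 3] : Fin 4 → R) k := by
  simp [lv]

theorem exists_perm (i j : Fin 4) (h : i ≠ j) : ∃ σ : Equiv.Perm (Fin 4), σ 0 = i ∧ σ 3 = j := by
  revert i j
  decide

theorem exists_curve [Finite K] (F : MvPolynomial (Fin 4) K) (hF : F.IsHomogeneous 3)
    (hsm : ∀ v : Fin 4 → AlgebraicClosure K, aeval v F = 0 → (∀ i, aeval v (pderiv i F) = 0) →
      v = 0)
    (x : Fin 4 → K) (hx0 : x ≠ 0) (hx : eval x F = 0) :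
    ∃ (e : ℕ) (f : Fin 4 → MvPolynomial (Fin 2) K), 0 < e ∧ (∀ i, (f i).IsHomogeneous e) ∧
      (∀ p : Fin 2 → AlgebraicClosure K, (∀ i, aeval p (f i) = 0) → p = 0) ∧
      aeval f F = 0 ∧
      ∃ (p : Fin 2 → AlgebraicClosure K) (c : AlgebraicClosure K), c ≠ 0 ∧
        ∀ i, aeval p (f i) = c * algebraMap K (AlgebraicClosure K) (x i) := by
  obtain ⟨ι, hι⟩ : ∃ ι : K →+* AlgebraicClosure K, ι = algebraMap K (AlgebraicClosure K) :=
    ⟨_, rfl⟩
  -- the gradient at the point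
  obtain ⟨ph, hph⟩ : ∃ ph : Fin 4 → K, ∀ i, ph i = eval x (pderiv i F) := ⟨_, fun _ => rfl⟩
  have hphx : ∑ i, x i * ph i = 0 := by
    have h1 := congrArg (eval x) hF.sum_X_mul_pderiv
    rw [map_sum] at h1
    simp only [map_mul, eval_X, map_nsmul, hx, smul_zero] at h1
    simpa only [hph] using h1
  have evx : ∀ G : MvPolynomial (Fin 4) K, aeval (fun i => ι (x i)) G = ι (eval x G) := by
    intro G
    rw [hι]
    have h1 := MvPolynomial.aeval_algebraMap_apply (AlgebraicClosure K) x G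
    have h2 := RingHom.congr_fun (MvPolynomial.coe_aeval_eq_eval x) G
    rw [← h2]
    exact h1
  have hph0 : ∃ i, ph i ≠ 0 := by
    by_contra hcon
    push Not at hcon
    have h1 := hsm (fun i => ι (x i)) (by rw [evx, hx, map_zero]) (by
      intro i
      rw [evx, ← hph, hcon, map_zero])
    apply hx0
    funext i
    have := congrFun h1 i
    simpa using this
  obtain ⟨i, j, hij, hxi, hphj⟩ : ∃ i j, i ≠ j ∧ x i ≠ 0 ∧ ph j ≠ 0 := by
    by_contra hcon
    push Not at hcon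
    obtain ⟨i, hi⟩ : ∃ i, x i ≠ 0 := by
      by_contra h
      push Not at h
      exact hx0 (funext h)
    have h1 : ∀ j, j ≠ i → ph j = 0 := fun j hj => hcon i j (Ne.symm hj) hi
    rw [Finset.sum_eq_single i (fun j _ hj => by rw [h1 j hj, mul_zero])
      (fun h => absurd (Finset.mem_univ i) h)] at hphx
    have h2 := (mul_eq_zero.mp hphx).resolve_left hi
    obtain ⟨j, hj⟩ := hph0
    by_cases hji : j = i
    · rw [hji] at hj; exact hj h2
    · exact hj (h1 j hji)
  obtain ⟨σ, hσ0, hσ3⟩ := exists_perm i j hij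
  subst hσ0 hσ3
  obtain ⟨a, ha⟩ := solve_lin hphj (ph (σ 1))
  obtain ⟨b, hb⟩ := solve_lin hphj (ph (σ 2))
  obtain ⟨c, hc⟩ := solve_lin hphj (1 : K)
  have hc0 : c ≠ 0 := by
    intro h
    rw [h, mul_zero] at hc
    exact zero_ne_one hc
  -- the form in the new coordinates
  obtain ⟨L, hL⟩ : ∃ L : Fin 4 → MvPolynomial (Fin 4) K, L = lv C x σ a b c X := ⟨_, rfl⟩
  obtain ⟨F', hF'⟩ : ∃ F' : MvPolynomial (Fin 4) K, F' = aeval L F := ⟨_, rfl⟩
  have hhom : F'.IsHomogeneous 3 := by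
    rw [hF']
    have : ∀ i, (L i).IsHomogeneous 1 := by
      intro i
      rw [hL, lv]
      apply IsHomogeneous.add
      · exact isHomogeneous_C_mul_X _ _
      · generalize σ.symm i = k
        fin_cases k
        · exact isHomogeneous_zero _ _ _
        · exact isHomogeneous_X _ _
        · exact isHomogeneous_X _ _
        · simp only [Fin.reduceFinMk, Matrix.cons_val]
          apply IsHomogeneous.add
          · apply IsHomogeneous.sub
            · rw [← C_neg]
              exact isHomogeneous_C_mul_X _ _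
            · exact isHomogeneous_C_mul_X _ _
          · exact isHomogeneous_C_mul_X _ _
    simpa using hF.aeval L this
  have hmap : ∀ (R : Type _) [CommRing R] [Algebra K R] (V : Fin 4 → R) (i : Fin 4),
      aeval V (L i) = lv (algebraMap K R) x σ a b c V i := by
    intro R _ _ V i
    rw [hL]
    have h1 := lv_map (C : K →+* MvPolynomial (Fin 4) K)
      ((aeval V : MvPolynomial (Fin 4) K →ₐ[K] R) : MvPolynomial (Fin 4) K →+* R) x σ a b c X i
    have h2 : ((aeval V : MvPolynomial (Fin 4) K →ₐ[K] R) : MvPolynomial (Fin 4) K →+* R).comp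
        (C : K →+* MvPolynomial (Fin 4) K) = algebraMap K R := by
      ext r
      simp
    rw [h2] at h1
    simpa using h1
  have hev : ∀ (R : Type _) [CommRing R] [Algebra K R] (V : Fin 4 → R)
      (G : MvPolynomial (Fin 4) K),
      aeval V (aeval L G) = aeval (lv (algebraMap K R) x σ a b c V) G := by
    intro R _ _ V G
    rw [comp_aeval_apply]
    congr 1
    congr 1
    exact funext fun i => hmap R V i
  -- values of the linear forms
  have hLσ : ∀ k, L (σ k) = C (x (σ k)) * X 0 +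
      (![0, X 1, X 2, -C a * X 1 - C b * X 2 + C c * X 3] : Fin 4 → MvPolynomial (Fin 4) K) k := by
    intro k
    rw [hL, lv_σ]
  have hp : ∀ (j : Fin 4) (V : Fin 4 → AlgebraicClosure K), aeval V (pderiv j F') =
      ∑ k, aeval (lv (algebraMap K (AlgebraicClosure K)) x σ a b c V) (pderiv (σ k) F) *
        aeval V (pderiv j (L (σ k))) := by
    intro j V
    rw [hF', pderiv_aeval, map_sum]
    rw [← Equiv.sum_comp σ]
    refine Finset.sum_congr rfl fun k _ => ?_
    rw [map_mul, hev]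
  have d01 : pderiv (0 : Fin 4) (X 1 : MvPolynomial (Fin 4) K) = 0 := pderiv_X_of_ne (by decide)
  have d02 : pderiv (0 : Fin 4) (X 2 : MvPolynomial (Fin 4) K) = 0 := pderiv_X_of_ne (by decide)
  have d03 : pderiv (0 : Fin 4) (X 3 : MvPolynomial (Fin 4) K) = 0 := pderiv_X_of_ne (by decide)
  have d10 : pderiv (1 : Fin 4) (X 0 : MvPolynomial (Fin 4) K) = 0 := pderiv_X_of_ne (by decide)
  have d12 : pderiv (1 : Fin 4) (X 2 : MvPolynomial (Fin 4) K) = 0 := pderiv_X_of_ne (by decide)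
  have d13 : pderiv (1 : Fin 4) (X 3 : MvPolynomial (Fin 4) K) = 0 := pderiv_X_of_ne (by decide)
  have d20 : pderiv (2 : Fin 4) (X 0 : MvPolynomial (Fin 4) K) = 0 := pderiv_X_of_ne (by decide)
  have d21 : pderiv (2 : Fin 4) (X 1 : MvPolynomial (Fin 4) K) = 0 := pderiv_X_of_ne (by decide)
  have d23 : pderiv (2 : Fin 4) (X 3 : MvPolynomial (Fin 4) K) = 0 := pderiv_X_of_ne (by decide)
  have d30 : pderiv (3 : Fin 4) (X 0 : MvPolynomial (Fin 4) K) = 0 := pderiv_X_of_ne (by decide)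
  have d31 : pderiv (3 : Fin 4) (X 1 : MvPolynomial (Fin 4) K) = 0 := pderiv_X_of_ne (by decide)
  have d32 : pderiv (3 : Fin 4) (X 2 : MvPolynomial (Fin 4) K) = 0 := pderiv_X_of_ne (by decide)
  -- directional derivatives
  have hp0 : ∀ V : Fin 4 → AlgebraicClosure K, aeval V (pderiv 0 F') =
      ∑ k, aeval (lv (algebraMap K (AlgebraicClosure K)) x σ a b c V) (pderiv (σ k) F) *
        ι (x (σ k)) := by
    intro V
    rw [hp]
    refine Finset.sum_congr rfl fun k _ => ?_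
    congr 1
    rw [hLσ, hι]
    fin_cases k <;> simp [d01, d02, d03]
  have hp1 : ∀ V : Fin 4 → AlgebraicClosure K, aeval V (pderiv 1 F') =
      aeval (lv (algebraMap K (AlgebraicClosure K)) x σ a b c V) (pderiv (σ 1) F) -
      ι a * aeval (lv (algebraMap K (AlgebraicClosure K)) x σ a b c V) (pderiv (σ 3) F) := by
    intro V
    rw [hp, Fin.sum_univ_four, hLσ, hLσ, hLσ, hLσ, hι]
    simp [d10, d12, d13]
    ring
  have hp2 : ∀ V : Fin 4 → AlgebraicClosure K, aeval V (pderiv 2 F') =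
      aeval (lv (algebraMap K (AlgebraicClosure K)) x σ a b c V) (pderiv (σ 2) F) -
      ι b * aeval (lv (algebraMap K (AlgebraicClosure K)) x σ a b c V) (pderiv (σ 3) F) := by
    intro V
    rw [hp, Fin.sum_univ_four, hLσ, hLσ, hLσ, hLσ, hι]
    simp [d20, d21, d23]
    ring
  have hp3 : ∀ V : Fin 4 → AlgebraicClosure K, aeval V (pderiv 3 F') =
      ι c * aeval (lv (algebraMap K (AlgebraicClosure K)) x σ a b c V) (pderiv (σ 3) F) := by
    intro V
    rw [hp, Fin.sum_univ_four, hLσ, hLσ, hLσ, hLσ, hι]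
    simp [d30, d31, d32]
    ring
  have hιinj : Function.Injective ι := ι.injective
  -- the coefficients
  obtain ⟨a', b', c', d', al, be, ga, l1, l2, l3, n0, n1, n2, n3, q1, q2, q3, q4, q5, q6, hFe⟩ :=
    cubic_rep20 F' hhom
  have hlv0 : lv (algebraMap K (AlgebraicClosure K)) x σ a b c ![1, 0, 0, 0] =
      fun i => ι (x i) := by
    funext i
    rw [lv, hι]
    generalize σ.symm i = k
    fin_cases k <;> simp
  have e0 : aeval (![1, 0, 0, 0] : Fin 4 → AlgebraicClosure K) F' = 0 := by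
    rw [hF', hev, hlv0, evx, hx, map_zero]
  have e1 : aeval (![1, 0, 0, 0] : Fin 4 → AlgebraicClosure K) (pderiv 1 F') = 0 := by
    rw [hp1, hlv0, evx, evx, ← hph, ← hph, ← map_mul, ← map_sub, mul_comm, ha, sub_self, map_zero]
  have e2 : aeval (![1, 0, 0, 0] : Fin 4 → AlgebraicClosure K) (pderiv 2 F') = 0 := by
    rw [hp2, hlv0, evx, evx, ← hph, ← hph, ← map_mul, ← map_sub, mul_comm, hb, sub_self, map_zero]
  have e3 : aeval (![1, 0, 0, 0] : Fin 4 → AlgebraicClosure K) (pderiv 3 F') = 1 := by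
    rw [hp3, hlv0, evx, ← hph, ← map_mul, mul_comm, hc, map_one]
  have ha' : a' = 0 := by
    apply hιinj
    rw [hFe] at e0
    simp [Fn] at e0
    simpa using e0
  have hb' : b' = 0 := by
    apply hιinj
    rw [hFe, map_add, pd1] at e1
    simp [FY, d10, d12, d13] at e1
    simpa using e1
  have hc' : c' = 0 := by
    apply hιinj
    rw [hFe, map_add, pd2] at e2
    simp [FZ, d20, d21, d23] at e2
    simpa using e2
  have hd' : d' = 1 := by
    rw [hFe, map_add, pd3] at e3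
    simp [FW, d30, d31, d32] at e3
    exact e3
  subst ha' hb' hc' hd'
  have hFn : F' = Fn (C al) (C be) (C ga) (C l1) (C l2) (C l3) (C n0) (C n1) (C n2) (C n3)
      (C q1) (C q2) (C q3) (C q4) (C q5) (C q6) (X 0) (X 1) (X 2) (X 3) := by
    rw [hFe]
    simp only [map_zero, map_one]
    ring
  -- smoothness in the new coordinates
  have hfin := par_normal al be ga l1 l2 l3 n0 n1 n2 n3 q1 q2 q3 q4 q5 q6 (by
    intro ι' hι' X0 Y0 Z0 W0 hh hhX hhY hhZ hhW
    obtain ⟨V, hV⟩ : ∃ V : Fin 4 → AlgebraicClosure K, V = ![X0, Y0, Z0, W0] := ⟨_, rfl⟩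
    have g0 : aeval V F' = 0 := by
      rw [hFn, hV, ← hh, hι']
      simp [Fn]
    have gX : aeval V (pderiv 0 F') = 0 := by
      rw [hFn, pd0, hV, ← hhX, hι']
      simp [FX]
    have gY : aeval V (pderiv 1 F') = 0 := by
      rw [hFn, pd1, hV, ← hhY, hι']
      simp [FY]
    have gZ : aeval V (pderiv 2 F') = 0 := by
      rw [hFn, pd2, hV, ← hhZ, hι']
      simp [FZ]
    have gW : aeval V (pderiv 3 F') = 0 := by
      rw [hFn, pd3, hV, ← hhW, hι']
      simp [FW]
    rw [hp0, Fin.sum_univ_four] at gX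
    rw [hp1] at gY
    rw [hp2] at gZ
    rw [hp3] at gW
    have ιc : ι c ≠ 0 := fun h => hc0 (hιinj (by rw [h, map_zero]))
    have w3 := (mul_eq_zero.mp gW).resolve_left ιc
    rw [w3, mul_zero, sub_zero] at gY gZ
    rw [w3, gY, gZ, zero_mul, zero_mul, zero_mul, add_zero, add_zero, add_zero] at gX
    have ιx : ι (x (σ 0)) ≠ 0 := fun h => hxi (hιinj (by rw [h, map_zero]))
    have w0 := (mul_eq_zero.mp gX).resolve_right ιx
    have hv := hsm (lv (algebraMap K (AlgebraicClosure K)) x σ a b c V) (by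
      rw [← hev, ← hF', g0]) (by
      intro i
      obtain ⟨k, rfl⟩ := σ.surjective i
      fin_cases k
      · exact w0
      · exact gY
      · exact gZ
      · exact w3)
    have hvk : ∀ k, ι (x (σ k)) * V 0 +
        (![0, V 1, V 2, -ι a * V 1 - ι b * V 2 + ι c * V 3] : Fin 4 → AlgebraicClosure K) k = 0 := by
      intro k
      rw [hι, ← lv_σ, hv]
      rfl
    have k0 := hvk 0
    have k1 := hvk 1
    have k2 := hvk 2
    have k3 := hvk 3
    simp only [Matrix.cons_val] at k0 k1 k2 k3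
    rw [add_zero] at k0
    have V0 := (mul_eq_zero.mp k0).resolve_left ιx
    rw [V0, mul_zero, zero_add] at k1 k2 k3
    rw [k1, k2, mul_zero, mul_zero, sub_zero, zero_add] at k3
    have V3 := (mul_eq_zero.mp k3).resolve_left ιc
    rw [hV] at k2 V3
    exact ⟨k2, V3⟩)
  obtain ⟨x', y', z', w', t, hz0, hx', hy', hz', hw', hnon⟩ := hfin
  obtain ⟨g, hg⟩ : ∃ g : Fin 4 → Polynomial K, g = lv Polynomial.C x σ a b c ![x', y', z', w'] :=
    ⟨_, rfl⟩
  refine curve_of_param F hF x hx0 g ?_ t (Polynomial.aeval t x') hx' ?_ ?_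
  · rw [hg]
    have h1 := hev (Polynomial K) ![x', y', z', w'] F
    rw [Polynomial.algebraMap_eq] at h1
    rw [← h1, ← hF', hFn, ← hz0]
    simp [Fn]
  · intro i
    rw [hg]
    have h1 := lv_map (Polynomial.C : K →+* Polynomial K)
      ((Polynomial.aeval t : Polynomial K →ₐ[K] AlgebraicClosure K) :
        Polynomial K →+* AlgebraicClosure K) x σ a b c ![x', y', z', w'] i
    simp only [RingHom.coe_coe] at h1
    rw [h1, lv]
    generalize σ.symm i = k
    fin_cases k <;> simp [hy', hz', hw', mul_comm]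
  · by_contra hcon
    push Not at hcon
    have hgk : ∀ k, g (σ k) = Polynomial.C (x (σ k)) * x' +
        (![0, y', z', -Polynomial.C a * y' - Polynomial.C b * z' + Polynomial.C c * w'] :
          Fin 4 → Polynomial K) k := by
      intro k
      rw [hg, lv_σ]
      rfl
    have h0 : ∀ k, Polynomial.C (x (σ 0)) *
        (![0, y', z', -Polynomial.C a * y' - Polynomial.C b * z' + Polynomial.C c * w'] :
          Fin 4 → Polynomial K) k = 0 := by
      intro k
      have h1 := hcon (σ 0) (σ k)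
      rw [hgk 0, hgk k] at h1
      simp only [Matrix.cons_val] at h1
      linear_combination h1
    have hxne : Polynomial.C (x (σ 0)) ≠ 0 := by
      rw [Ne, Polynomial.C_eq_zero]
      exact hxi
    have hcne : Polynomial.C c ≠ 0 := by
      rw [Ne, Polynomial.C_eq_zero]
      exact hc0
    have k1 := (mul_eq_zero.mp (h0 1)).resolve_left hxne
    have k2 := (mul_eq_zero.mp (h0 2)).resolve_left hxne
    have k3 := (mul_eq_zero.mp (h0 3)).resolve_left hxne
    simp only [Matrix.cons_val] at k1 k2 k3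
    rw [k1, k2, mul_zero, mul_zero, sub_zero, zero_add] at k3
    have k4 := (mul_eq_zero.mp k3).resolve_left hcne
    rcases hnon with h | h | h
    · exact h k1
    · exact h k2
    · exact h k4

end Pool.Agent.Y214.CS
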